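import Pool.Agent.Q88.CritConst.Potential

/-! The energy of the test function. -/

open MeasureTheory Set Filter Metric
open scoped ContDiff Topology Convolution

namespace Pool.Agent.Q88.CritConst

/-- The unit cube centred at the origin. -/
def cube : Set F := {x | ∀ i, x i ∈ Ico (-(1 / 2) : ℝ) (1 / 2)}

/-- The shell on which the cutoff varies. -/
def shell : Set F := {x | 1 / 4 ≤ ‖x‖ ∧ ‖x‖ ≤ 3 / 8}

lemma measurableSet_cube : MeasurableSet cube := by
  have : cube = ⋂ i : Fin 6, (fun x : F => x i) ⁻¹' (Ico (-(1 / 2) : ℝ) (1 / 2)) := by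
    ext x
    simp [cube]
  rw [this]
  apply MeasurableSet.iInter
  intro i
  exact (EuclideanSpace.proj i : F →L[ℝ] ℝ).continuous.measurable measurableSet_Ico

lemma measurableSet_shell : MeasurableSet shell := by
  have : IsClosed shell :=
    (isClosed_le continuous_const continuous_norm).inter
      (isClosed_le continuous_norm continuous_const)
  exact this.measurableSet

lemma mem_cube_of_norm {x : F} (hx : ‖x‖ < 1 / 2) : x ∈ cube := by
  intro i
  have h1 := PiLp.norm_apply_le x i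
  rw [Real.norm_eq_abs] at h1
  have h2 := abs_lt.mp (lt_of_le_of_lt h1 hx)
  exact ⟨h2.1.le, h2.2⟩

lemma norm_sq_le_of_mem_cube {x : F} (hx : x ∈ cube) : ‖x‖ ^ 2 ≤ 3 / 2 := by
  rw [norm_sq_sum]
  calc ∑ i, (x i) ^ 2 ≤ ∑ i : Fin 6, (1 / 4 : ℝ) := by
        apply Finset.sum_le_sum
        intro i _
        have := hx i
        nlinarith [this.1, this.2]
    _ = 3 / 2 := by
        simp
        norm_num

lemma cube_subset : cube ⊆ closedBall (0 : F) 2 := by
  intro x hx
  have := norm_sq_le_of_mem_cube hx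
  simp only [mem_closedBall, dist_zero_right]
  nlinarith [norm_nonneg x]

lemma shell_subset : shell ⊆ cube := fun x hx => mem_cube_of_norm (by linarith [hx.2])

lemma integrableOn_cube {u : F → ℝ} (hu : Continuous u) : IntegrableOn u cube :=
  (hu.continuousOn.integrableOn_compact (isCompact_closedBall (0 : F) 2)).mono_set cube_subset

lemma volume_cube_lt_top : volume cube < ⊤ :=
  (measure_mono cube_subset).trans_lt measure_closedBall_lt_top

lemma volume_shell_lt_top : volume shell < ⊤ :=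
  (measure_mono shell_subset).trans_lt volume_cube_lt_top

lemma cutP_eventuallyEq {x : F} (hx : x ∉ shell) :
    ∃ c : ℝ, (cutP : F → ℝ) =ᶠ[𝓝 x] fun _ => c := by
  unfold shell at hx
  simp only [mem_ofPred_eq, not_and_or, not_le] at hx
  rcases hx with hx | hx
  · refine ⟨1, ?_⟩
    have h1 : ball (0 : F) (1 / 4) ∈ 𝓝 x := isOpen_ball.mem_nhds (by simpa using hx)
    filter_upwards [h1] with y hy
    exact cutP.one_of_mem_closedBall (ball_subset_closedBall hy)
  · refine ⟨0, ?_⟩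
    have h1 : (closedBall (0 : F) (3 / 8))ᶜ ∈ 𝓝 x :=
      isClosed_closedBall.isOpen_compl.mem_nhds (by simpa using hx)
    filter_upwards [h1] with y hy
    apply cutP.zero_of_le_dist
    simp only [mem_compl_iff, mem_closedBall, not_le] at hy
    exact hy.le

lemma pd_cutP_zero {x : F} (hx : x ∉ shell) (i : Fin 6) :
    pd i cutP x = 0 ∧ pd i (pd i cutP) x = 0 := by
  obtain ⟨c, hc⟩ := cutP_eventuallyEq hx
  refine ⟨?_, ?_⟩
  · rw [pd_congr hc, pd_const]
  · rw [pd_congr (pd_eventuallyEq hc i), pd_const, pd_const]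

lemma exists_cut_bound : ∃ C : ℝ, 0 ≤ C ∧ ∀ (i : Fin 6) (x : F),
    |pd i cutP x| ≤ C ∧ |pd i (pd i cutP) x| ≤ C := by
  have hc : ContDiff ℝ ∞ (cutP : F → ℝ) := cutP.contDiff
  have hs : HasCompactSupport (cutP : F → ℝ) := cutP.hasCompactSupport
  have h1 : ∀ i : Fin 6, ∃ C : ℝ, ∀ x : F, |pd i cutP x| ≤ C := by
    intro i
    obtain ⟨C, hC⟩ := (hasCompactSupport_pd hs i).exists_bound_of_continuous
      (contDiff_pd hc i).continuous
    exact ⟨C, fun x => by simpa using hC x⟩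
  have h2 : ∀ i : Fin 6, ∃ C : ℝ, ∀ x : F, |pd i (pd i cutP) x| ≤ C := by
    intro i
    obtain ⟨C, hC⟩ := (hasCompactSupport_pd (hasCompactSupport_pd hs i) i).exists_bound_of_continuous
      (contDiff_pd (contDiff_pd hc i) i).continuous
    exact ⟨C, fun x => by simpa using hC x⟩
  choose C1 hC1 using h1
  choose C2 hC2 using h2
  have hC1n : ∀ i, 0 ≤ C1 i := fun i => (abs_nonneg _).trans (hC1 i 0)
  have hC2n : ∀ i, 0 ≤ C2 i := fun i => (abs_nonneg _).trans (hC2 i 0)
  have h3 : ∀ i, C1 i ≤ ∑ i, C1 i := fun i =>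
    Finset.single_le_sum (fun i _ => hC1n i) (Finset.mem_univ i)
  have h4 : ∀ i, C2 i ≤ ∑ i, C2 i := fun i =>
    Finset.single_le_sum (fun i _ => hC2n i) (Finset.mem_univ i)
  have h5 : 0 ≤ ∑ i, C1 i := Finset.sum_nonneg fun i _ => hC1n i
  have h6 : 0 ≤ ∑ i, C2 i := Finset.sum_nonneg fun i _ => hC2n i
  refine ⟨∑ i, C1 i + ∑ i, C2 i, by positivity, ?_⟩
  intro i x
  constructor
  · have := hC1 i x
    have := h3 i
    linarith
  · have := hC2 i x
    have := h4 i
    linarith

lemma exists_err_bound : ∃ C : ℝ, 0 ≤ C ∧ ∀ (f : F → ℝ), Dens f → ∀ a : ℝ, 0 < a →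
    (∀ x, x ∉ shell → err f a x = 0) ∧
    (∀ x ∈ shell, |err f a x| ≤ C * ∫ y, |f y|) ∧
    (∀ x ∈ shell, |psi f a x| ≤ C * ∫ y, |f y|) := by
  obtain ⟨C, hC0, hC⟩ := exists_cut_bound
  have hm := mass_pos
  refine ⟨48 * C * mass⁻¹ * 12 ^ 5 + 6 * C * (mass⁻¹ * 12 ^ 4) + mass⁻¹ * 12 ^ 4,
    by positivity, ?_⟩
  intro f hf a ha
  have hk : 0 ≤ ∫ y, |f y| := integral_nonneg fun y => abs_nonneg _
  refine ⟨?_, ?_, ?_⟩
  · intro x hx
    unfold err
    simp [(pd_cutP_zero hx _).1, (pd_cutP_zero hx _).2]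
  · intro x hx
    unfold err
    have h1 : |∑ i, pd i cutP x * pd i (conv f (kk a)) x|
        ≤ 6 * (C * ((4 * mass⁻¹ * 12 ^ 5) * ∫ y, |f y|)) := by
      refine (Finset.abs_sum_le_sum_abs _ _).trans ?_
      calc ∑ i, |pd i cutP x * pd i (conv f (kk a)) x|
          ≤ ∑ i : Fin 6, (C * ((4 * mass⁻¹ * 12 ^ 5) * ∫ y, |f y|)) := by
            apply Finset.sum_le_sum
            intro i _
            rw [abs_mul]
            exact mul_le_mul (hC i x).1 (pd_pot_bound hf ha i hx.1 hx.2) (abs_nonneg _) hC0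
        _ = 6 * (C * ((4 * mass⁻¹ * 12 ^ 5) * ∫ y, |f y|)) := by simp
    have h2 : |∑ i, pd i (pd i cutP) x| ≤ 6 * C := by
      refine (Finset.abs_sum_le_sum_abs _ _).trans ?_
      calc ∑ i, |pd i (pd i cutP) x| ≤ ∑ i : Fin 6, C :=
            Finset.sum_le_sum fun i _ => (hC i x).2
        _ = 6 * C := by simp
    have h3 := pot_bound hf ha hx.1 hx.2
    have h4 : |conv f (kk a) x * ∑ i, pd i (pd i cutP) x|
        ≤ ((mass⁻¹ * 12 ^ 4) * ∫ y, |f y|) * (6 * C) := by
      rw [abs_mul]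
      exact mul_le_mul h3 h2 (abs_nonneg _) (by positivity)
    have h5 : |2 * ∑ i, pd i cutP x * pd i (conv f (kk a)) x|
        ≤ 2 * (6 * (C * ((4 * mass⁻¹ * 12 ^ 5) * ∫ y, |f y|))) := by
      rw [abs_mul, abs_of_nonneg (by norm_num : (0 : ℝ) ≤ 2)]
      exact mul_le_mul_of_nonneg_left h1 (by norm_num)
    have h6 := abs_add_le (2 * ∑ i, pd i cutP x * pd i (conv f (kk a)) x)
      (conv f (kk a) x * ∑ i, pd i (pd i cutP) x)
    have h7 : 0 ≤ (mass⁻¹ * 12 ^ 4) * ∫ y, |f y| := by positivity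
    nlinarith [h4, h5, h6, h7]
  · intro x hx
    unfold psi
    have h3 := pot_bound hf ha hx.1 hx.2
    have h1 : |cutP x| ≤ 1 := by
      rw [abs_of_nonneg cutP.nonneg]
      exact cutP.le_one
    rw [abs_mul]
    calc |cutP x| * |conv f (kk a) x| ≤ 1 * ((mass⁻¹ * 12 ^ 4) * ∫ y, |f y|) :=
          mul_le_mul h1 h3 (abs_nonneg _) (by norm_num)
      _ ≤ _ := by
          have h8 : 0 ≤ (48 * C * mass⁻¹ * 12 ^ 5 + 6 * C * (mass⁻¹ * 12 ^ 4)) * ∫ y, |f y| := by
            positivity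
          nlinarith

lemma ibp {w p : F → ℝ} (hw : ContDiff ℝ 1 w) (hp : ContDiff ℝ ∞ p)
    (hs : HasCompactSupport p) :
    ∑ i, ∫ x, pd i w x * pd i p x = -∫ x, w x * ∑ i, pd i (pd i p) x := by
  have hpd := fun i => hasCompactSupport_pd hs i
  have hpc := fun i => contDiff_pd hp i
  have h1 : ∀ i, ∫ x, pd i w x * pd i p x = -∫ x, w x * pd i (pd i p) x := by
    intro i
    have hle : (1 : WithTop ℕ∞) ≤ ∞ := by simp
    have h := integral_mul_fderiv_eq_neg_fderiv_mul_of_integrable (μ := volume) (f := w)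
      (g := pd i p) (v := bv i) ?_ ?_ ?_ ?_ ?_
    · rw [show (∫ x, w x * pd i (pd i p) x) = ∫ x, w x * fderiv ℝ (pd i p) x (bv i) from rfl, h,
        neg_neg]
      rfl
    · exact ((continuous_pd hw i).mul (hpc i).continuous).integrable_of_hasCompactSupport
        (hpd i).mul_left
    · exact (hw.continuous.mul (contDiff_pd (hpc i) i).continuous).integrable_of_hasCompactSupport
        (hasCompactSupport_pd (hpd i) i).mul_left
    · exact (hw.continuous.mul (hpc i).continuous).integrable_of_hasCompactSupport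
        (hpd i).mul_left
    · intro x _
      exact (hw.differentiable (by simp)) x
    · intro x _
      exact ((hpc i).differentiable (by simp)) x
  simp_rw [h1]
  rw [Finset.sum_neg_distrib, ← integral_finsetSum]
  · simp_rw [Finset.mul_sum]
  · intro i _
    exact (hw.continuous.mul (contDiff_pd (hpc i) i).continuous).integrable_of_hasCompactSupport
        (hasCompactSupport_pd (hpd i) i).mul_left

/-- The energy inequality tested against a smooth function with support in the cube. -/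
lemma energy_ge {w p : F → ℝ} (hw : ContDiff ℝ 1 w) (hp : ContDiff ℝ ∞ p)
    (hs : HasCompactSupport p) (hcube : ∀ x, x ∉ cube → ∀ i, pd i p x = 0) (S : ℝ) :
    2 * S * (∑ i, ∫ x, pd i w x * pd i p x) - S ^ 2 * ∫ x, ‖fderiv ℝ p x‖ ^ 2
      ≤ ∫ x in cube, ‖fderiv ℝ w x‖ ^ 2 := by
  have hi1 : ∀ i, Integrable (fun x => pd i w x * pd i p x) := fun i =>
    ((continuous_pd hw i).mul (contDiff_pd hp i).continuous).integrable_of_hasCompactSupport
      (hasCompactSupport_pd hs i).mul_left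
  have hi2 : Integrable (fun x => ‖fderiv ℝ p x‖ ^ 2) := by
    apply Continuous.integrable_of_hasCompactSupport
    · exact (hp.continuous_fderiv (by simp)).norm.pow 2
    · exact (hs.fderiv (𝕜 := ℝ)).comp_left (g := fun L : F →L[ℝ] ℝ => ‖L‖ ^ 2) (by simp)
  have hi3 : Integrable (fun x => 2 * S * ∑ i, pd i w x * pd i p x) :=
    (integrable_finsetSum _ fun i _ => hi1 i).const_mul _
  have h1 : 2 * S * (∑ i, ∫ x, pd i w x * pd i p x) - S ^ 2 * ∫ x, ‖fderiv ℝ p x‖ ^ 2
      = ∫ x, (2 * S * ∑ i, pd i w x * pd i p x) - S ^ 2 * ‖fderiv ℝ p x‖ ^ 2 := by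
    rw [integral_sub hi3 (hi2.const_mul _), integral_const_mul, integral_const_mul,
      integral_finsetSum _ (fun i _ => hi1 i)]
  have h2 : ∫ x, (2 * S * ∑ i, pd i w x * pd i p x) - S ^ 2 * ‖fderiv ℝ p x‖ ^ 2
      = ∫ x in cube, (2 * S * ∑ i, pd i w x * pd i p x) - S ^ 2 * ‖fderiv ℝ p x‖ ^ 2 := by
    rw [setIntegral_eq_integral_of_forall_compl_eq_zero]
    intro x hx
    rw [norm_fderiv_sq]
    simp [hcube x hx]
  rw [h1, h2]
  apply setIntegral_mono_on
  · exact (hi3.sub (hi2.const_mul _)).integrableOn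
  · exact integrableOn_cube ((hw.continuous_fderiv (by simp)).norm.pow 2)
  · exact measurableSet_cube
  · intro x _
    rw [norm_fderiv_sq, norm_fderiv_sq, Finset.mul_sum, Finset.mul_sum, ← Finset.sum_sub_distrib]
    apply Finset.sum_le_sum
    intro i _
    nlinarith [sq_nonneg (pd i w x - S * pd i p x)]

lemma pd_psi_zero {f : F → ℝ} {a : ℝ} {x : F} (hx : x ∉ cube) (i : Fin 6) :
    pd i (psi f a) x = 0 := by
  have hx1 : 3 / 8 < ‖x‖ := by
    by_contra h
    push Not at h
    exact hx (mem_cube_of_norm (by linarith))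
  have h1 : (closedBall (0 : F) (3 / 8))ᶜ ∈ 𝓝 x :=
    isClosed_closedBall.isOpen_compl.mem_nhds (by simpa using hx1)
  have h2 : psi f a =ᶠ[𝓝 x] fun _ => 0 := by
    filter_upwards [h1] with y hy
    unfold psi
    rw [cutP.zero_of_le_dist, zero_mul]
    simp only [mem_compl_iff, mem_closedBall, not_le] at hy
    exact hy.le
  rw [pd_congr h2, pd_const]

end Pool.Agent.Q88.CritConst
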