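import Mathlib

/-! The regularised fundamental solution of the Laplace operator in dimension six. -/

open MeasureTheory Set Filter Metric
open scoped ContDiff Topology

namespace Pool.Agent.Q88.CritConst

/-- Euclidean space of dimension six. -/
abbrev F := EuclideanSpace ℝ (Fin 6)

/-- The `i`-th basis vector. -/
noncomputable def bv (i : Fin 6) : F := EuclideanSpace.single i 1

/-- The derivative in the direction of the `i`-th basis vector. -/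
noncomputable def pd (i : Fin 6) (u : F → ℝ) (x : F) : ℝ := fderiv ℝ u x (bv i)

/-- The kernel `c a⁴ (a²|z|² + 1)⁻²`. -/
noncomputable def ker (c a : ℝ) (z : F) : ℝ := c * a ^ 4 * ((a ^ 2 * ‖z‖ ^ 2 + 1) ^ 2)⁻¹

lemma q_pos (a : ℝ) (z : F) : 0 < a ^ 2 * ‖z‖ ^ 2 + 1 := by positivity

lemma hasFDerivAt_q (a : ℝ) (z : F) :
    HasFDerivAt (fun z : F => a ^ 2 * ‖z‖ ^ 2 + 1) ((a ^ 2) • (2 • innerSL ℝ z)) z := by
  have h := (hasStrictFDerivAt_norm_sq z).hasFDerivAt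
  exact (h.const_mul (a ^ 2)).add_const 1

lemma hasFDerivAt_qinv (a : ℝ) (n : ℕ) (z : F) :
    HasFDerivAt (fun z : F => ((a ^ 2 * ‖z‖ ^ 2 + 1) ^ n)⁻¹)
      ((-(n : ℝ) * ((a ^ 2 * ‖z‖ ^ 2 + 1) ^ (n + 1))⁻¹) • ((a ^ 2) • (2 • innerSL ℝ z))) z := by
  have hq := q_pos a z
  have h1 : HasDerivAt (fun t : ℝ => (t ^ n)⁻¹)
      (-(n : ℝ) * ((a ^ 2 * ‖z‖ ^ 2 + 1) ^ (n + 1))⁻¹) (a ^ 2 * ‖z‖ ^ 2 + 1) := by
    have h2 := (hasDerivAt_pow n (a ^ 2 * ‖z‖ ^ 2 + 1)).fun_inv (by positivity)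
    have h3 : -(n : ℝ) * ((a ^ 2 * ‖z‖ ^ 2 + 1) ^ (n + 1))⁻¹
        = -(↑n * (a ^ 2 * ‖z‖ ^ 2 + 1) ^ (n - 1)) / ((a ^ 2 * ‖z‖ ^ 2 + 1) ^ n) ^ 2 := by
      rcases n with _ | n
      · simp
      · rw [Nat.add_sub_cancel]
        field_simp
        ring
    rw [h3]
    exact h2
  have h4 := HasDerivAt.comp_hasFDerivAt (h₂ := fun t : ℝ => (t ^ n)⁻¹)
    (f := fun z : F => a ^ 2 * ‖z‖ ^ 2 + 1) z h1 (hasFDerivAt_q a z)
  exact h4

lemma contDiff_qinv (a : ℝ) (n : ℕ) :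
    ContDiff ℝ ∞ (fun z : F => ((a ^ 2 * ‖z‖ ^ 2 + 1) ^ n)⁻¹) := by
  apply ContDiff.inv
  · exact ((contDiff_const.mul (contDiff_norm_sq ℝ)).add contDiff_const).pow n
  · intro z
    exact (pow_pos (q_pos a z) n).ne'

lemma contDiff_ker (c a : ℝ) : ContDiff ℝ ∞ (ker c a) := by
  unfold ker
  exact contDiff_const.mul (contDiff_qinv a 2)

lemma inner_bv (z : F) (i : Fin 6) : inner ℝ z (bv i) = z i := by
  unfold bv
  rw [EuclideanSpace.inner_single_right]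
  simp

lemma pd_ker (c a : ℝ) (i : Fin 6) (z : F) :
    pd i (ker c a) z = -4 * c * a ^ 6 * (z i * ((a ^ 2 * ‖z‖ ^ 2 + 1) ^ 3)⁻¹) := by
  have h := (hasFDerivAt_qinv a 2 z).const_mul (c * a ^ 4)
  unfold pd
  have h2 : fderiv ℝ (ker c a) z = _ := h.fderiv
  rw [h2]
  simp only [ContinuousLinearMap.smul_apply, innerSL_apply_apply, inner_bv, smul_eq_mul,
    nsmul_eq_mul, Nat.cast_ofNat]
  ring

lemma pd_pd_ker (c a : ℝ) (i : Fin 6) (z : F) :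
    pd i (pd i (ker c a)) z = -4 * c * a ^ 6 * ((a ^ 2 * ‖z‖ ^ 2 + 1) ^ 3)⁻¹
      + 24 * c * a ^ 8 * (z i) ^ 2 * ((a ^ 2 * ‖z‖ ^ 2 + 1) ^ 4)⁻¹ := by
  have h0 : pd i (ker c a) = fun z : F =>
      -4 * c * a ^ 6 * (z i * ((a ^ 2 * ‖z‖ ^ 2 + 1) ^ 3)⁻¹) := by
    funext z
    exact pd_ker c a i z
  rw [h0]
  have h1 : HasFDerivAt (fun z : F => z i) (EuclideanSpace.proj i : F →L[ℝ] ℝ) z :=
    (EuclideanSpace.proj i : F →L[ℝ] ℝ).hasFDerivAt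
  have h2 := (h1.mul (hasFDerivAt_qinv a 3 z)).const_mul (-4 * c * a ^ 6)
  unfold pd
  have h3 : fderiv ℝ (fun z : F =>
      -4 * c * a ^ 6 * (z i * ((a ^ 2 * ‖z‖ ^ 2 + 1) ^ 3)⁻¹)) z = _ := h2.fderiv
  rw [h3]
  have h4 : (EuclideanSpace.proj i : F →L[ℝ] ℝ) (bv i) = 1 := by
    simp [bv]
  simp only [ContinuousLinearMap.smul_apply, ContinuousLinearMap.add_apply, innerSL_apply_apply,
    inner_bv, smul_eq_mul, nsmul_eq_mul, Nat.cast_ofNat, h4]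
  ring

lemma norm_sq_sum (z : F) : ‖z‖ ^ 2 = ∑ i, (z i) ^ 2 := by
  rw [EuclideanSpace.norm_sq_eq]
  simp

lemma lap_ker (c a : ℝ) (z : F) :
    ∑ i, pd i (pd i (ker c a)) z = -(24 * c * a ^ 6 * ((a ^ 2 * ‖z‖ ^ 2 + 1) ^ 4)⁻¹) := by
  simp_rw [pd_pd_ker]
  rw [Finset.sum_add_distrib, Finset.sum_const, ← Finset.sum_mul, ← Finset.mul_sum,
    ← norm_sq_sum]
  have hq := q_pos a z
  simp only [Finset.card_univ, Fintype.card_fin, nsmul_eq_mul, Nat.cast_ofNat]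
  field_simp
  ring

/-- For `|z| ≥ 1/12` the kernel is bounded independently of `a`. -/
lemma ker_le {c a : ℝ} (hc : 0 ≤ c) (ha : 0 < a) {z : F} (hz : 1 / 12 ≤ ‖z‖) :
    |ker c a z| ≤ c * 12 ^ 4 := by
  unfold ker
  have hq := q_pos a z
  have hn : 0 < ‖z‖ := by linarith
  rw [abs_of_nonneg (by positivity), mul_assoc]
  apply mul_le_mul_of_nonneg_left _ hc
  have h1 : (a ^ 2 * ‖z‖ ^ 2) ^ 2 ≤ (a ^ 2 * ‖z‖ ^ 2 + 1) ^ 2 := by
    apply pow_le_pow_left₀ (by positivity)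
    linarith
  calc a ^ 4 * ((a ^ 2 * ‖z‖ ^ 2 + 1) ^ 2)⁻¹ ≤ a ^ 4 * ((a ^ 2 * ‖z‖ ^ 2) ^ 2)⁻¹ := by
        apply mul_le_mul_of_nonneg_left _ (by positivity)
        apply inv_anti₀ (by positivity) h1
    _ = (‖z‖⁻¹) ^ 4 := by field_simp
    _ ≤ 12 ^ 4 := by
        apply pow_le_pow_left₀ (by positivity)
        rw [inv_le_comm₀ hn (by norm_num)]
        linarith

lemma pd_ker_le {c a : ℝ} (hc : 0 ≤ c) (ha : 0 < a) (i : Fin 6) {z : F} (hz : 1 / 12 ≤ ‖z‖) :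
    |pd i (ker c a) z| ≤ 4 * c * 12 ^ 5 := by
  rw [pd_ker]
  have hq := q_pos a z
  have hn : 0 < ‖z‖ := by linarith
  have hzi : |z i| ≤ ‖z‖ := by
    have := PiLp.norm_apply_le z i
    simpa using this
  rw [abs_mul, abs_mul (z i), abs_of_pos (inv_pos.mpr (pow_pos hq 3))]
  have h0 : |-4 * c * a ^ 6| = 4 * c * a ^ 6 := by
    rw [show -4 * c * a ^ 6 = -(4 * c * a ^ 6) by ring, abs_neg, abs_of_nonneg (by positivity)]
  rw [h0, mul_assoc (4 * c)]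
  apply mul_le_mul_of_nonneg_left _ (by positivity)
  have h1 : (a ^ 2 * ‖z‖ ^ 2) ^ 3 ≤ (a ^ 2 * ‖z‖ ^ 2 + 1) ^ 3 := by
    apply pow_le_pow_left₀ (by positivity)
    linarith
  calc a ^ 6 * (|z i| * ((a ^ 2 * ‖z‖ ^ 2 + 1) ^ 3)⁻¹)
      ≤ a ^ 6 * (‖z‖ * ((a ^ 2 * ‖z‖ ^ 2) ^ 3)⁻¹) := by
        apply mul_le_mul_of_nonneg_left _ (by positivity)
        apply mul_le_mul hzi _ (by positivity) hn.le
        apply inv_anti₀ (by positivity) h1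
    _ = (‖z‖⁻¹) ^ 5 := by field_simp
    _ ≤ 12 ^ 5 := by
        apply pow_le_pow_left₀ (by positivity)
        rw [inv_le_comm₀ hn (by norm_num)]
        linarith

/-- The mass of `24 (|z|² + 1)⁻⁴`. -/
noncomputable def mass : ℝ := ∫ z : F, 24 * ((‖z‖ ^ 2 + 1) ^ 4)⁻¹

lemma integrable_prof : Integrable (fun z : F => 24 * ((‖z‖ ^ 2 + 1) ^ 4)⁻¹) := by
  have h := integrable_rpow_neg_one_add_norm_sq (E := F) (μ := volume) (r := 8)
    (by simp; norm_num)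
  apply (h.const_mul 24).congr
  filter_upwards with z
  have : 0 < 1 + ‖z‖ ^ 2 := by positivity
  rw [show (-(8 : ℝ) / 2) = -(4 : ℕ) by norm_num, Real.rpow_neg this.le, Real.rpow_natCast,
    add_comm 1]

lemma mass_pos : 0 < mass := by
  unfold mass
  rw [integral_pos_iff_support_of_nonneg (fun z => by positivity) integrable_prof]
  have : Function.support (fun z : F => 24 * ((‖z‖ ^ 2 + 1) ^ 4)⁻¹) = univ := by
    ext z
    simp only [Function.mem_support, mem_univ, iff_true]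
    positivity
  rw [this]
  simp

/-- The normalised profile. -/
noncomputable def prof (z : F) : ℝ := mass⁻¹ * (24 * ((‖z‖ ^ 2 + 1) ^ 4)⁻¹)

lemma prof_nonneg (z : F) : 0 ≤ prof z := by
  have := mass_pos
  unfold prof
  positivity

lemma integral_prof : ∫ z, prof z = 1 := by
  unfold prof
  rw [integral_const_mul]
  exact inv_mul_cancel₀ mass_pos.ne'

lemma tendsto_prof :
    Tendsto (fun x : F => ‖x‖ ^ Module.finrank ℝ F * prof x) (Bornology.cobounded F) (𝓝 0) := by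
  have hm := mass_pos
  have h1 : Tendsto (fun x : F => mass⁻¹ * 24 * (‖x‖ ^ 2)⁻¹) (Bornology.cobounded F) (𝓝 0) := by
    have h2 : Tendsto (fun x : F => ‖x‖ ^ 2) (Bornology.cobounded F) atTop :=
      (tendsto_pow_atTop two_ne_zero).comp tendsto_norm_cobounded_atTop
    simpa using (tendsto_inv_atTop_zero.comp h2).const_mul (mass⁻¹ * 24)
  apply squeeze_zero (fun x => mul_nonneg (by positivity) (prof_nonneg x)) _ h1
  intro x
  rw [show Module.finrank ℝ F = 6 by simp]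
  unfold prof
  by_cases hx : ‖x‖ = 0
  · rw [hx]
    simp
  · have hx0 : 0 < ‖x‖ := lt_of_le_of_ne (norm_nonneg x) (Ne.symm hx)
    have h3 : ((‖x‖ ^ 2 + 1) ^ 4)⁻¹ ≤ ((‖x‖ ^ 2) ^ 4)⁻¹ := by
      apply inv_anti₀ (by positivity)
      apply pow_le_pow_left₀ (by positivity)
      linarith
    calc ‖x‖ ^ 6 * (mass⁻¹ * (24 * ((‖x‖ ^ 2 + 1) ^ 4)⁻¹))
        ≤ ‖x‖ ^ 6 * (mass⁻¹ * (24 * ((‖x‖ ^ 2) ^ 4)⁻¹)) := by gcongr
      _ = mass⁻¹ * 24 * (‖x‖ ^ 2)⁻¹ := by field_simp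

lemma lap_ker_prof (a : ℝ) (z : F) :
    ∑ i, pd i (pd i (ker mass⁻¹ a)) z = -(a ^ 6 * prof (a • z)) := by
  rw [lap_ker]
  unfold prof
  rw [norm_smul, mul_pow, Real.norm_eq_abs, sq_abs]
  ring

end Pool.Agent.Q88.CritConst
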