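import Pool.Agent.Q88.CritConst.Energy

/-! The key inequality for continuously differentiable functions. -/

open MeasureTheory Set Filter Metric
open scoped ContDiff Topology Convolution

namespace Pool.Agent.Q88.CritConst

/-- `S` is admissible in the Sobolev inequality of Euclidean space of dimension six. -/
def SobIneq (S : ℝ) : Prop := ∀ u : F → ℝ, ContDiff ℝ ∞ u → HasCompactSupport u →
  S * (∫ x, |u x| ^ 3) ^ (2 / 3 : ℝ) ≤ ∫ x, ‖fderiv ℝ u x‖ ^ 2

/-- The bounds of the error terms. -/
def ErrBound (C : ℝ) : Prop := ∀ (f : F → ℝ), Dens f → ∀ a : ℝ, 0 < a →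
    (∀ x, x ∉ shell → err f a x = 0) ∧
    (∀ x ∈ shell, |err f a x| ≤ C * ∫ y, |f y|) ∧
    (∀ x ∈ shell, |psi f a x| ≤ C * ∫ y, |f y|)

lemma continuous_err {f : F → ℝ} (hf : Dens f) (a : ℝ) : Continuous (err f a) := by
  have hc : ContDiff ℝ ∞ (cutP : F → ℝ) := cutP.contDiff
  have hp := contDiff_pot hf a
  unfold err
  apply Continuous.add
  · apply continuous_const.mul
    apply continuous_finsetSum
    intro i _
    exact (contDiff_pd hc i).continuous.mul (contDiff_pd hp i).continuous
  · apply hp.continuous.mul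
    apply continuous_finsetSum
    intro i _
    exact (contDiff_pd (contDiff_pd hc i) i).continuous

lemma continuous_cut_reg {f : F → ℝ} (hf : Dens f) (a : ℝ) :
    Continuous (fun x => cutP x * reg f a x) := by
  have h1 : (fun x => cutP x * reg f a x)
      = fun x => err f a x - ∑ i, pd i (pd i (psi f a)) x := by
    funext x
    rw [lap_psi hf a x]
    ring
  rw [h1]
  apply (continuous_err hf a).sub
  apply continuous_finsetSum
  intro i _
  exact (contDiff_pd (contDiff_pd (contDiff_psi hf a) i) i).continuous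

lemma compact_cut_reg (f : F → ℝ) (a : ℝ) :
    HasCompactSupport (fun x => cutP x * reg f a x) :=
  cutP.hasCompactSupport.mul_right

lemma integral_mul_err {C : ℝ} (hC : ErrBound C) {f : F → ℝ} (hf : Dens f) {a : ℝ} (ha : 0 < a)
    {w : F → ℝ} (hw : Continuous w) :
    |∫ x, w x * err f a x| ≤ C * (∫ y, |f y|) * ∫ x in shell, |w x| := by
  have h0 := hC f hf a ha
  have h1 : ∫ x, w x * err f a x = ∫ x in shell, w x * err f a x := by
    rw [setIntegral_eq_integral_of_forall_compl_eq_zero]
    intro x hx
    rw [h0.1 x hx, mul_zero]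
  rw [h1, ← integral_const_mul, ← Real.norm_eq_abs]
  refine (norm_integral_le_integral_norm _).trans ?_
  apply setIntegral_mono_on
  · exact ((integrableOn_cube (hw.mul (continuous_err hf a))).mono_set shell_subset).norm
  · exact ((integrableOn_cube (continuous_const.mul hw.abs)).mono_set shell_subset)
  · exact measurableSet_shell
  · intro x hx
    rw [Real.norm_eq_abs, abs_mul, mul_comm]
    exact mul_le_mul_of_nonneg_right (h0.2.1 x hx) (abs_nonneg _)

lemma key_a {S : ℝ} (hS : 0 < S) (hSob : SobIneq S) {C : ℝ} (hC0 : 0 ≤ C) (hC : ErrBound C)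
    {f : F → ℝ} (hf : Dens f) {a : ℝ} (ha : 0 < a) {w : F → ℝ} (hw : ContDiff ℝ 1 w) :
    2 * S * ((∫ x, w x * (cutP x * reg f a x)) - C * (∫ y, |f y|) * ∫ x in shell, |w x|)
      - S * (∫ x, |cutP x * reg f a x| ^ (3 / 2 : ℝ)) ^ (4 / 3 : ℝ)
      - S ^ 2 * (2 * (C ^ 2 * volume.real shell * (∫ y, |f y|) ^ 2))
      ≤ ∫ x in cube, ‖fderiv ℝ w x‖ ^ 2 := by
  set k := ∫ y, |f y| with hk
  have hk0 : 0 ≤ k := integral_nonneg fun y => abs_nonneg _
  have hle : (1 : WithTop ℕ∞) ≤ ∞ := by simp
  set p := psi f a with hp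
  have hpc : ContDiff ℝ ∞ p := contDiff_psi hf a
  have hps : HasCompactSupport p := hasCompactSupport_psi f a
  have hE := energy_ge hw hpc hps (fun x hx i => pd_psi_zero hx i) S
  set h := fun x => cutP x * reg f a x with hh
  have hhc : Continuous h := continuous_cut_reg hf a
  have hhs : HasCompactSupport h := compact_cut_reg f a
  have hgen : ∀ u : F → ℝ, ContDiff ℝ 1 u → ∑ i, ∫ x, pd i u x * pd i p x
      = (∫ x, u x * h x) - ∫ x, u x * err f a x := by
    intro u hu
    have h2 : HasCompactSupport (err f a) := by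
      apply HasCompactSupport.intro (isCompact_closedBall (0 : F) (3 / 8))
      intro x hx
      apply (hC f hf a ha).1
      intro hx2
      exact hx (by simpa using hx2.2)
    rw [ibp hu hpc hps, ← integral_neg, ← integral_sub]
    · apply integral_congr_ae
      filter_upwards with x
      rw [hp, lap_psi hf a x]
      simp only [hh]
      ring
    · exact (hu.continuous.mul hhc).integrable_of_hasCompactSupport hhs.mul_left
    · exact (hu.continuous.mul (continuous_err hf a)).integrable_of_hasCompactSupport h2.mul_left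
  have hB := hgen w hw
  have hP := hgen p (hpc.of_le hle)
  have hEp : ∫ x, ‖fderiv ℝ p x‖ ^ 2 = ∑ i, ∫ x, pd i p x * pd i p x := by
    rw [← integral_finsetSum]
    · apply integral_congr_ae
      filter_upwards with x
      rw [norm_fderiv_sq]
      apply Finset.sum_congr rfl
      intro i _
      ring
    · intro i _
      exact ((contDiff_pd hpc i).continuous.mul
        (contDiff_pd hpc i).continuous).integrable_of_hasCompactSupport
        (hasCompactSupport_pd hps i).mul_left
  have he1 := integral_mul_err hC hf ha hw.continuous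
  have he2 := integral_mul_err hC hf ha hpc.continuous
  have he3 : ∫ x in shell, |p x| ≤ C * k * volume.real shell := by
    have : ∫ x in shell, |p x| ≤ ∫ x in shell, C * k := by
      apply setIntegral_mono_on
      · exact (integrableOn_cube hpc.continuous.abs).mono_set shell_subset
      · exact integrableOn_const volume_shell_lt_top.ne
      · exact measurableSet_shell
      · intro x hx
        exact (hC f hf a ha).2.2 x hx
    rw [setIntegral_const, smul_eq_mul] at this
    linarith
  have hsob := hSob p hpc hps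
  set A := (∫ x, |p x| ^ 3) ^ (1 / 3 : ℝ) with hA
  set D := (∫ x, |h x| ^ (3 / 2 : ℝ)) ^ (2 / 3 : ℝ) with hD
  have hI3 : 0 ≤ ∫ x, |p x| ^ 3 := integral_nonneg fun x => by positivity
  have hIh : 0 ≤ ∫ x, |h x| ^ (3 / 2 : ℝ) := integral_nonneg fun x => by positivity
  have hA2 : (∫ x, |p x| ^ 3) ^ (2 / 3 : ℝ) = A ^ 2 := by
    rw [hA, ← Real.rpow_natCast, ← Real.rpow_mul hI3]
    norm_num
  have hD2 : (∫ x, |h x| ^ (3 / 2 : ℝ)) ^ (4 / 3 : ℝ) = D ^ 2 := by
    rw [hD, ← Real.rpow_natCast, ← Real.rpow_mul hIh]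
    norm_num
  have hhold : ∫ x, p x * h x ≤ A * D := by
    have h1 : ∫ x, p x * h x ≤ ∫ x, |p x| * |h x| := by
      apply integral_mono
      · exact (hpc.continuous.mul hhc).integrable_of_hasCompactSupport hhs.mul_left
      · exact (hpc.continuous.abs.mul hhc.abs).integrable_of_hasCompactSupport
          (hhs.comp_left (g := fun t : ℝ => |t|) abs_zero).mul_left
      · intro x
        show p x * h x ≤ |p x| * |h x|
        rw [← abs_mul]
        exact le_abs_self _
    refine h1.trans ?_
    have hconj : (3 : ℝ).HolderConjugate (3 / 2) := by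
      rw [Real.holderConjugate_iff]
      norm_num
    have h2 := integral_mul_le_Lp_mul_Lq_of_nonneg (μ := volume) hconj
      (f := fun x => |p x|) (g := fun x => |h x|)
      (Eventually.of_forall fun x => abs_nonneg _) (Eventually.of_forall fun x => abs_nonneg _)
      (hpc.continuous.abs.memLp_of_hasCompactSupport
        (hps.comp_left (g := fun t : ℝ => |t|) abs_zero))
      (hhc.abs.memLp_of_hasCompactSupport
        (hhs.comp_left (g := fun t : ℝ => |t|) abs_zero))
    have h3 : ∫ x, |p x| ^ (3 : ℝ) = ∫ x, |p x| ^ 3 := by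
      apply integral_congr_ae
      filter_upwards with x
      rw [← Real.rpow_natCast]
      norm_num
    rw [h3] at h2
    have h4 : (1 : ℝ) / (3 / 2) = 2 / 3 := by norm_num
    rw [h4] at h2
    exact h2
  rw [hA2] at hsob
  rw [hD2]
  rw [hEp, hP] at hE hsob
  rw [hB] at hE
  have hpe := abs_le.mp he2
  have hwe := abs_le.mp he1
  have hCk : 0 ≤ C * k := by positivity
  have h5 : C * k * ∫ x in shell, |p x| ≤ C * k * (C * k * volume.real shell) :=
    mul_le_mul_of_nonneg_left he3 hCk
  set Ep := (∫ x, p x * h x) - ∫ x, p x * err f a x with hEpdef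
  set Z := C ^ 2 * volume.real shell * k ^ 2 with hZ
  have h6 : Ep ≤ A * D + Z := by
    have : C * k * (C * k * volume.real shell) = Z := by rw [hZ]; ring
    linarith [hpe.1]
  have h7 : S * Ep ≤ D ^ 2 + 2 * S * Z := by
    have h8 : S * Ep ≤ S * (A * D + Z) := mul_le_mul_of_nonneg_left h6 hS.le
    have h9 : S * (S * A ^ 2) ≤ S * Ep := mul_le_mul_of_nonneg_left hsob hS.le
    nlinarith [sq_nonneg (S * A - D)]
  have h10 : S ^ 2 * Ep ≤ S * D ^ 2 + 2 * S ^ 2 * Z := by
    have := mul_le_mul_of_nonneg_left h7 hS.le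
    nlinarith
  have h11 : 2 * S * ((∫ x, w x * h x) - C * k * ∫ x in shell, |w x|)
      ≤ 2 * S * ((∫ x, w x * h x) - ∫ x, w x * err f a x) := by
    apply mul_le_mul_of_nonneg_left _ (by positivity)
    linarith [hwe.2]
  linarith

lemma integral_scaled_prof {a : ℝ} (ha : 0 < a) (x : F) :
    ∫ y, a ^ 6 * prof (a • (x - y)) = 1 := by
  rw [integral_sub_left_eq_self (fun y => a ^ 6 * prof (a • y)) volume x, integral_const_mul,
    Measure.integral_comp_smul volume prof a, integral_prof]
  have : Module.finrank ℝ F = 6 := by simp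
  rw [this, smul_eq_mul, mul_one, abs_of_pos (by positivity)]
  field_simp

lemma integrable_scaled_prof {a : ℝ} (ha : 0 < a) (x : F) :
    Integrable (fun y => a ^ 6 * prof (a • (x - y))) :=
  integrable_of_integral_eq_one (integral_scaled_prof ha x)

lemma reg_bound {f : F → ℝ} {M : ℝ} (hM : ∀ x, |f x| ≤ M) {a : ℝ} (ha : 0 < a)
    (x : F) : |reg f a x| ≤ M := by
  unfold reg
  rw [← Real.norm_eq_abs]
  refine (norm_integral_le_integral_norm _).trans ?_
  calc ∫ y, ‖a ^ 6 * prof (a • (x - y)) * f y‖ ≤ ∫ y, (a ^ 6 * prof (a • (x - y))) * M := by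
        apply integral_mono_of_nonneg
        · filter_upwards with y
          positivity
        · exact (integrable_scaled_prof ha x).mul_const M
        · filter_upwards with y
          have h1 : 0 ≤ a ^ 6 * prof (a • (x - y)) := mul_nonneg (by positivity) (prof_nonneg _)
          rw [norm_mul, Real.norm_of_nonneg h1, Real.norm_eq_abs]
          exact mul_le_mul_of_nonneg_left (hM y) h1
    _ = M := by rw [integral_mul_const, integral_scaled_prof ha x, one_mul]

lemma tendsto_reg {f : F → ℝ} (hf : Dens f) (x : F) :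
    Tendsto (fun a => reg f a x) atTop (𝓝 (f x)) := by
  have h := tendsto_integral_comp_smul_smul_of_integrable' (μ := (volume : Measure F))
    prof_nonneg integral_prof tendsto_prof (g := f) (x₀ := x) hf.integrable
    hf.cont.continuousAt
  have h6 : Module.finrank ℝ F = 6 := by simp
  simp only [h6, smul_eq_mul] at h
  exact h

lemma Dens.bounded {f : F → ℝ} (hf : Dens f) : ∃ M, 0 ≤ M ∧ ∀ x, |f x| ≤ M := by
  obtain ⟨M, hM⟩ := hf.compact.exists_bound_of_continuous hf.cont
  exact ⟨M, (norm_nonneg _).trans (hM 0), fun x => by simpa using hM x⟩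

/-- The key inequality with a general density. -/
lemma key_lim {S : ℝ} (hS : 0 < S) (hSob : SobIneq S) {C : ℝ} (hC0 : 0 ≤ C) (hC : ErrBound C)
    {f : F → ℝ} (hf : Dens f) {w : F → ℝ} (hw : ContDiff ℝ 1 w) :
    2 * S * ((∫ x, w x * (cutP x * f x)) - C * (∫ y, |f y|) * ∫ x in shell, |w x|)
      - S * (∫ x, |cutP x * f x| ^ (3 / 2 : ℝ)) ^ (4 / 3 : ℝ)
      - S ^ 2 * (2 * (C ^ 2 * volume.real shell * (∫ y, |f y|) ^ 2))
      ≤ ∫ x in cube, ‖fderiv ℝ w x‖ ^ 2 := by
  obtain ⟨M, hM0, hM⟩ := hf.bounded
  have hcs : HasCompactSupport (cutP : F → ℝ) := cutP.hasCompactSupport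
  have hcc : Continuous (cutP : F → ℝ) := cutP.continuous
  have hc1 : ∀ x, |cutP x| ≤ 1 := fun x => by
    rw [abs_of_nonneg cutP.nonneg]
    exact cutP.le_one
  have hT1 : Tendsto (fun a => ∫ x, w x * (cutP x * reg f a x)) atTop
      (𝓝 (∫ x, w x * (cutP x * f x))) := by
    apply tendsto_integral_filter_of_dominated_convergence (fun x => |w x * cutP x| * M)
    · filter_upwards with a
      exact (hw.continuous.mul (continuous_cut_reg hf a)).aestronglyMeasurable
    · filter_upwards [eventually_gt_atTop 0] with a ha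
      filter_upwards with x
      rw [← mul_assoc, norm_mul, Real.norm_eq_abs, Real.norm_eq_abs]
      exact mul_le_mul_of_nonneg_left (reg_bound hM ha x) (abs_nonneg _)
    · apply Integrable.mul_const
      apply Integrable.abs
      exact (hw.continuous.mul hcc).integrable_of_hasCompactSupport hcs.mul_left
    · filter_upwards with x
      exact ((tendsto_reg hf x).const_mul _).const_mul _
  have hT2 : Tendsto (fun a => ∫ x, |cutP x * reg f a x| ^ (3 / 2 : ℝ)) atTop
      (𝓝 (∫ x, |cutP x * f x| ^ (3 / 2 : ℝ))) := by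
    apply tendsto_integral_filter_of_dominated_convergence
      (fun x => (|cutP x| * M) ^ (3 / 2 : ℝ))
    · filter_upwards with a
      exact ((continuous_cut_reg hf a).abs.rpow_const (fun x => Or.inr (by norm_num))).aestronglyMeasurable
    · filter_upwards [eventually_gt_atTop 0] with a ha
      filter_upwards with x
      rw [Real.norm_of_nonneg (by positivity)]
      apply Real.rpow_le_rpow (abs_nonneg _) _ (by norm_num)
      rw [abs_mul]
      exact mul_le_mul_of_nonneg_left (reg_bound hM ha x) (abs_nonneg _)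
    · apply Continuous.integrable_of_hasCompactSupport
      · exact (hcc.abs.mul continuous_const).rpow_const (fun x => Or.inr (by norm_num))
      · exact hcs.comp_left (g := fun t : ℝ => (|t| * M) ^ (3 / 2 : ℝ))
          (by rw [abs_zero, zero_mul, Real.zero_rpow (by norm_num)])
    · filter_upwards with x
      have h1 : Tendsto (fun a => |cutP x * reg f a x|) atTop (𝓝 |cutP x * f x|) :=
        ((tendsto_reg hf x).const_mul _).abs
      exact h1.rpow_const (Or.inr (by norm_num))
  have hT3 := hT2.rpow_const (p := (4 / 3 : ℝ)) (Or.inr (by norm_num))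
  have hT : Tendsto (fun a => 2 * S * ((∫ x, w x * (cutP x * reg f a x))
        - C * (∫ y, |f y|) * ∫ x in shell, |w x|)
      - S * (∫ x, |cutP x * reg f a x| ^ (3 / 2 : ℝ)) ^ (4 / 3 : ℝ)
      - S ^ 2 * (2 * (C ^ 2 * volume.real shell * (∫ y, |f y|) ^ 2))) atTop
      (𝓝 (2 * S * ((∫ x, w x * (cutP x * f x)) - C * (∫ y, |f y|) * ∫ x in shell, |w x|)
      - S * (∫ x, |cutP x * f x| ^ (3 / 2 : ℝ)) ^ (4 / 3 : ℝ)
      - S ^ 2 * (2 * (C ^ 2 * volume.real shell * (∫ y, |f y|) ^ 2)))) :=
    (((hT1.sub_const _).const_mul _).sub (hT3.const_mul _)).sub_const _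
  apply le_of_tendsto hT
  filter_upwards [eventually_gt_atTop 0] with a ha
  exact key_a hS hSob hC0 hC hf ha hw

end Pool.Agent.Q88.CritConst
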