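import Pool.Agent.Q88.CritConst.Kernel

/-! The regularised potential of a continuous function with support in a small ball, and its
product with a cutoff. -/

open MeasureTheory Set Filter Metric
open scoped ContDiff Topology Convolution

namespace Pool.Agent.Q88.CritConst

lemma contDiff_pd {u : F → ℝ} (hu : ContDiff ℝ ∞ u) (i : Fin 6) : ContDiff ℝ ∞ (pd i u) :=
  (hu.fderiv_right (by simp)).clm_apply contDiff_const

lemma continuous_pd {u : F → ℝ} (hu : ContDiff ℝ 1 u) (i : Fin 6) : Continuous (pd i u) :=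
  (hu.continuous_fderiv (by simp)).clm_apply continuous_const

lemma hasCompactSupport_pd {u : F → ℝ} (hu : HasCompactSupport u) (i : Fin 6) :
    HasCompactSupport (pd i u) :=
  (hu.fderiv (𝕜 := ℝ)).comp_left (g := fun L : F →L[ℝ] ℝ => L (bv i)) (by simp)

lemma pd_eventuallyEq {u v : F → ℝ} {x : F} (h : u =ᶠ[𝓝 x] v) (i : Fin 6) :
    pd i u =ᶠ[𝓝 x] pd i v := by
  filter_upwards [h.fderiv (𝕜 := ℝ)] with y hy
  unfold pd
  rw [hy]

lemma pd_congr {u v : F → ℝ} {x : F} (h : u =ᶠ[𝓝 x] v) (i : Fin 6) :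
    pd i u x = pd i v x := (pd_eventuallyEq h i).eq_of_nhds

lemma pd_const (c : ℝ) (i : Fin 6) : pd i (fun _ => c) = fun _ => 0 := by
  funext x
  simp [pd]

lemma norm_fderiv_sq (u : F → ℝ) (x : F) : ‖fderiv ℝ u x‖ ^ 2 = ∑ i, (pd i u x) ^ 2 := by
  have h1 : ‖fderiv ℝ u x‖ = ‖(InnerProductSpace.toDual ℝ F).symm (fderiv ℝ u x)‖ := by
    rw [LinearIsometryEquiv.norm_map]
  rw [h1, norm_sq_sum]
  apply Finset.sum_congr rfl
  intro i _
  congr 1
  rw [← inner_bv, InnerProductSpace.toDual_symm_apply]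
  rfl

/-- Convolution of real functions. -/
noncomputable def conv (f g : F → ℝ) : F → ℝ :=
  f ⋆[ContinuousLinearMap.mul ℝ ℝ, volume] g

lemma conv_apply (f g : F → ℝ) (x : F) : conv f g x = ∫ y, f y * g (x - y) := rfl

lemma pd_conv {f g : F → ℝ} (hf : LocallyIntegrable f) (hg : ContDiff ℝ ∞ g)
    (hgs : HasCompactSupport g) (i : Fin 6) : pd i (conv f g) = conv f (pd i g) := by
  funext x
  have hg1 : ContDiff ℝ 1 g := hg.of_le (by simp)
  have h1 := hgs.hasFDerivAt_convolution_right (ContinuousLinearMap.mul ℝ ℝ) hf hg1 x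
  have h2 : fderiv ℝ (conv f g) x = _ := h1.fderiv
  unfold pd
  rw [h2]
  have h3 := (hgs.fderiv (𝕜 := ℝ)).convolutionExists_right
    ((ContinuousLinearMap.mul ℝ ℝ).precompR F) hf (hg1.continuous_fderiv (by simp)) x
  rw [convolution_def, ContinuousLinearMap.integral_apply h3, conv_apply]
  rfl

lemma contDiff_conv {f g : F → ℝ} (hf : LocallyIntegrable f) (hg : ContDiff ℝ ∞ g)
    (hgs : HasCompactSupport g) : ContDiff ℝ ∞ (conv f g) :=
  hgs.contDiff_convolution_right (ContinuousLinearMap.mul ℝ ℝ) hf hg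

/-- The cutoff of the kernel. -/
noncomputable def cutK : ContDiffBump (0 : F) := ⟨1, 2, by norm_num, by norm_num⟩

/-- The cutoff of the density. -/
noncomputable def cutD : ContDiffBump (0 : F) := ⟨1 / 8, 1 / 6, by norm_num, by norm_num⟩

/-- The cutoff of the potential. -/
noncomputable def cutP : ContDiffBump (0 : F) := ⟨1 / 4, 3 / 8, by norm_num, by norm_num⟩

/-- The kernel with compact support. -/
noncomputable def kk (a : ℝ) (z : F) : ℝ := cutK z * ker mass⁻¹ a z

lemma contDiff_kk (a : ℝ) : ContDiff ℝ ∞ (kk a) := cutK.contDiff.mul (contDiff_ker _ _)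

lemma hasCompactSupport_kk (a : ℝ) : HasCompactSupport (kk a) :=
  cutK.hasCompactSupport.mul_right

lemma kk_eventuallyEq (a : ℝ) {z : F} (hz : ‖z‖ < 1) : kk a =ᶠ[𝓝 z] ker mass⁻¹ a := by
  have h1 : ball (0 : F) 1 ∈ 𝓝 z := isOpen_ball.mem_nhds (by simpa using hz)
  filter_upwards [h1] with y hy
  unfold kk
  rw [cutK.one_of_mem_closedBall, one_mul]
  exact ball_subset_closedBall hy

/-- The regularised density. -/
noncomputable def reg (f : F → ℝ) (a : ℝ) (x : F) : ℝ :=
  ∫ y, (a ^ 6 * prof (a • (x - y))) * f y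

/-- A density supported in the ball of radius `1/6`. -/
structure Dens (f : F → ℝ) : Prop where
  cont : Continuous f
  supp : ∀ y, 1 / 6 ≤ ‖y‖ → f y = 0

lemma Dens.compact {f : F → ℝ} (hf : Dens f) : HasCompactSupport f := by
  apply HasCompactSupport.intro (isCompact_closedBall (0 : F) (1 / 6))
  intro x hx
  apply hf.supp
  simp only [mem_closedBall, dist_zero_right, not_le] at hx
  exact hx.le

lemma Dens.integrable {f : F → ℝ} (hf : Dens f) : Integrable f :=
  hf.cont.integrable_of_hasCompactSupport hf.compact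

lemma lap_conv {f : F → ℝ} (hf : Dens f) (a : ℝ) {x : F} (hx : ‖x‖ < 1 / 2) :
    ∑ i, pd i (pd i (conv f (kk a))) x = -reg f a x := by
  have hli : LocallyIntegrable f := hf.integrable.locallyIntegrable
  have h1 : ∀ i, pd i (pd i (conv f (kk a))) = conv f (pd i (pd i (kk a))) := by
    intro i
    rw [pd_conv hli (contDiff_kk a) (hasCompactSupport_kk a),
      pd_conv hli (contDiff_pd (contDiff_kk a) i) (hasCompactSupport_pd (hasCompactSupport_kk a) i)]
  simp_rw [h1, conv_apply]
  rw [← integral_finsetSum, reg, ← integral_neg]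
  · apply integral_congr_ae
    filter_upwards with y
    by_cases hy : 1 / 6 ≤ ‖y‖
    · simp [hf.supp y hy]
    · push Not at hy
      have hz : ‖x - y‖ < 1 := by
        have := norm_sub_le x y
        linarith
      have h2 : ∀ i, pd i (pd i (kk a)) (x - y) = pd i (pd i (ker mass⁻¹ a)) (x - y) := by
        intro i
        exact pd_congr (pd_eventuallyEq (kk_eventuallyEq a hz) i) i
      simp_rw [h2]
      rw [← Finset.mul_sum, lap_ker_prof]
      ring
  · intro i _
    exact ((hasCompactSupport_pd (hasCompactSupport_pd (hasCompactSupport_kk a) i)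
      i).convolutionExists_right (ContinuousLinearMap.mul ℝ ℝ) hli
      (contDiff_pd (contDiff_pd (contDiff_kk a) i) i).continuous x)

lemma conv_bound {f g : F → ℝ} (hf : Dens f) {M : ℝ} {x : F}
    (hx1 : 1 / 4 ≤ ‖x‖) (hx2 : ‖x‖ ≤ 3 / 8)
    (hg : ∀ z : F, 1 / 12 ≤ ‖z‖ → ‖z‖ < 1 → |g z| ≤ M) :
    |conv f g x| ≤ M * ∫ y, |f y| := by
  rw [conv_apply, ← Real.norm_eq_abs]
  refine (norm_integral_le_integral_norm _).trans ?_
  rw [← integral_const_mul]
  apply integral_mono_of_nonneg
  · filter_upwards with y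
    positivity
  · exact hf.integrable.abs.const_mul M
  · filter_upwards with y
    by_cases hy : 1 / 6 ≤ ‖y‖
    · simp [hf.supp y hy]
    · push Not at hy
      have hz : ‖x - y‖ < 1 := by
        have := norm_sub_le x y
        linarith
      have hz2 : 1 / 12 ≤ ‖x - y‖ := by
        have := norm_sub_norm_le x y
        linarith
      rw [Real.norm_eq_abs, abs_mul, mul_comm]
      exact mul_le_mul_of_nonneg_right (hg _ hz2 hz) (abs_nonneg _)

lemma pot_bound {f : F → ℝ} (hf : Dens f) {a : ℝ} (ha : 0 < a) {x : F}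
    (hx1 : 1 / 4 ≤ ‖x‖) (hx2 : ‖x‖ ≤ 3 / 8) :
    |conv f (kk a) x| ≤ (mass⁻¹ * 12 ^ 4) * ∫ y, |f y| := by
  have hm := mass_pos
  apply conv_bound hf hx1 hx2
  intro z hz hz1
  rw [(kk_eventuallyEq a hz1).eq_of_nhds]
  exact ker_le (by positivity) ha hz

lemma pd_pot_bound {f : F → ℝ} (hf : Dens f) {a : ℝ} (ha : 0 < a) (i : Fin 6) {x : F}
    (hx1 : 1 / 4 ≤ ‖x‖) (hx2 : ‖x‖ ≤ 3 / 8) :
    |pd i (conv f (kk a)) x| ≤ (4 * mass⁻¹ * 12 ^ 5) * ∫ y, |f y| := by
  have hm := mass_pos
  rw [pd_conv hf.integrable.locallyIntegrable (contDiff_kk a) (hasCompactSupport_kk a)]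
  apply conv_bound hf hx1 hx2
  intro z hz hz1
  rw [pd_congr (kk_eventuallyEq a hz1) i]
  exact pd_ker_le (by positivity) ha i hz

/-- The test function. -/
noncomputable def psi (f : F → ℝ) (a : ℝ) (x : F) : ℝ := cutP x * conv f (kk a) x

lemma contDiff_pot {f : F → ℝ} (hf : Dens f) (a : ℝ) : ContDiff ℝ ∞ (conv f (kk a)) :=
  contDiff_conv hf.integrable.locallyIntegrable (contDiff_kk a) (hasCompactSupport_kk a)

lemma contDiff_psi {f : F → ℝ} (hf : Dens f) (a : ℝ) : ContDiff ℝ ∞ (psi f a) :=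
  cutP.contDiff.mul (contDiff_pot hf a)

lemma hasCompactSupport_psi (f : F → ℝ) (a : ℝ) : HasCompactSupport (psi f a) :=
  cutP.hasCompactSupport.mul_right

lemma pd_mul {u v : F → ℝ} (hu : ContDiff ℝ 1 u) (hv : ContDiff ℝ 1 v) (i : Fin 6) :
    pd i (fun x => u x * v x) = fun x => u x * pd i v x + pd i u x * v x := by
  funext x
  have h1 := ((hu.differentiable (by simp)) x).hasFDerivAt
  have h2 := ((hv.differentiable (by simp)) x).hasFDerivAt
  have h3 : fderiv ℝ (fun x => u x * v x) x = _ := (h1.mul h2).fderiv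
  unfold pd
  rw [h3]
  simp only [ContinuousLinearMap.add_apply, ContinuousLinearMap.smul_apply, smul_eq_mul]
  ring

lemma pd_add {u v : F → ℝ} (hu : ContDiff ℝ 1 u) (hv : ContDiff ℝ 1 v) (i : Fin 6) :
    pd i (fun x => u x + v x) = fun x => pd i u x + pd i v x := by
  funext x
  have h1 := ((hu.differentiable (by simp)) x).hasFDerivAt
  have h2 := ((hv.differentiable (by simp)) x).hasFDerivAt
  have h3 : fderiv ℝ (fun x => u x + v x) x = _ := (h1.add h2).fderiv
  unfold pd
  rw [h3]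
  simp only [ContinuousLinearMap.add_apply]

/-- The error in the Laplace equation caused by the cutoff. -/
noncomputable def err (f : F → ℝ) (a : ℝ) (x : F) : ℝ :=
  2 * ∑ i, pd i cutP x * pd i (conv f (kk a)) x + conv f (kk a) x * ∑ i, pd i (pd i cutP) x

lemma lap_psi {f : F → ℝ} (hf : Dens f) (a : ℝ) (x : F) :
    ∑ i, pd i (pd i (psi f a)) x = -(cutP x * reg f a x) + err f a x := by
  have hc : ContDiff ℝ ∞ (cutP : F → ℝ) := cutP.contDiff
  have hp := contDiff_pot hf a
  have hle : (1 : WithTop ℕ∞) ≤ ∞ := by simp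
  have h1 : ∀ i, pd i (pd i (psi f a)) x = cutP x * pd i (pd i (conv f (kk a))) x
      + (2 * (pd i cutP x * pd i (conv f (kk a)) x)
      + conv f (kk a) x * pd i (pd i cutP) x) := by
    intro i
    have h2 : pd i (psi f a) = fun x => cutP x * pd i (conv f (kk a)) x
        + pd i cutP x * conv f (kk a) x := pd_mul (hc.of_le hle) (hp.of_le hle) i
    rw [h2, pd_add (u := fun x => cutP x * pd i (conv f (kk a)) x)
      (v := fun x => pd i cutP x * conv f (kk a) x)
      ((hc.mul (contDiff_pd hp i)).of_le hle) (((contDiff_pd hc i).mul hp).of_le hle)]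
    rw [pd_mul (hc.of_le hle) ((contDiff_pd hp i).of_le hle),
      pd_mul ((contDiff_pd hc i).of_le hle) (hp.of_le hle)]
    ring
  simp_rw [h1]
  rw [Finset.sum_add_distrib, ← Finset.mul_sum, Finset.sum_add_distrib, ← Finset.mul_sum,
    ← Finset.mul_sum]
  unfold err
  by_cases hx : ‖x‖ < 1 / 2
  · rw [lap_conv hf a hx]
    ring
  · push Not at hx
    have h3 : cutP x = 0 := by
      apply cutP.zero_of_le_dist
      rw [dist_zero_right]
      exact le_trans (by norm_num [cutP]) hx
    rw [h3]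
    ring

end Pool.Agent.Q88.CritConst
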