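import Pool.Agent.Q88.CritConst.Key

/-! The inequality `S (1 - K Q) ≤ E` for continuously differentiable functions. -/

open MeasureTheory Set Filter Metric
open scoped ContDiff Topology

namespace Pool.Agent.Q88.CritConst

/-- The weight integral. -/
lemma integrableOn_weight :
    IntegrableOn (fun x : F => (‖x‖ ^ (-(4 / 3) : ℝ)) ^ (3 : ℝ)) (ball 0 (1 / 2)) := by
  rw [integrableOn_fun_norm_addHaar (μ := (volume : Measure F))
    (f := fun y : ℝ => (y ^ (-(4 / 3) : ℝ)) ^ (3 : ℝ)) (r := 1 / 2)]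
  have h1 : EqOn (fun y : ℝ => y ^ (Module.finrank ℝ F - 1) • (y ^ (-(4 / 3) : ℝ)) ^ (3 : ℝ))
      (fun y => y) (Ioo 0 (1 / 2)) := by
    intro y hy
    have h6 : Module.finrank ℝ F - 1 = 5 := by simp
    simp only [h6, smul_eq_mul]
    rw [← Real.rpow_mul hy.1.le, ← Real.rpow_natCast, ← Real.rpow_add hy.1]
    norm_num
  rw [integrableOn_congr_fun h1 measurableSet_Ioo]
  exact (continuous_id.continuousOn.integrableOn_compact
    (isCompact_Icc (a := (0 : ℝ)) (b := 1 / 2))).mono_set Ioo_subset_Icc_self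

/-- The density built from a function. -/
noncomputable def dens (w : F → ℝ) (y : F) : ℝ := cutD y * (|w y| * w y)

lemma isDens {w : F → ℝ} (hw : Continuous w) : Dens (dens w) := by
  constructor
  · exact cutD.continuous.mul (hw.abs.mul hw)
  · intro y hy
    unfold dens
    rw [cutD.zero_of_le_dist, zero_mul]
    rw [dist_zero_right]
    exact hy

lemma abs_dens (w : F → ℝ) (y : F) : |dens w y| = cutD y * |w y| ^ 2 := by
  unfold dens
  rw [abs_mul, abs_mul, abs_abs, abs_of_nonneg cutD.nonneg]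
  ring

lemma exists_k_bound : ∃ c : ℝ, 0 ≤ c ∧ ∀ w : F → ℝ, Continuous w →
    ∫ y, |dens w y| ≤ c * (∫ x in cube, ‖x‖ ^ 2 * |w x| ^ 3) ^ (2 / 3 : ℝ) := by
  refine ⟨(∫ x in ball (0 : F) (1 / 2), (‖x‖ ^ (-(4 / 3) : ℝ)) ^ (3 : ℝ)) ^ (1 / 3 : ℝ),
    by positivity, ?_⟩
  intro w hw
  have hsub : ball (0 : F) (1 / 2) ⊆ cube := fun x hx => mem_cube_of_norm (by simpa using hx)
  have h1 : ∫ y, |dens w y| = ∫ y in ball (0 : F) (1 / 2), |dens w y| := by
    rw [setIntegral_eq_integral_of_forall_compl_eq_zero]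
    intro x hx
    simp only [mem_ball, dist_zero_right, not_lt] at hx
    rw [(isDens hw).supp x (by linarith), abs_zero]
  have hconj : (3 / 2 : ℝ).HolderConjugate 3 := by
    rw [Real.holderConjugate_iff]
    norm_num
  have hms : AEStronglyMeasurable (fun x : F => ‖x‖ ^ (-(4 / 3) : ℝ))
      (volume.restrict (ball 0 (1 / 2))) :=
    (measurable_norm.pow_const _).aestronglyMeasurable
  have hg : MemLp (fun x : F => ‖x‖ ^ (-(4 / 3) : ℝ)) (ENNReal.ofReal 3)
      (volume.restrict (ball 0 (1 / 2))) := by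
    rw [← integrable_norm_rpow_iff hms (by simp) (by simp)]
    rw [ENNReal.toReal_ofReal (by norm_num)]
    apply integrableOn_weight.congr
    filter_upwards with x
    rw [Real.norm_of_nonneg (by positivity)]
  have hfc : Continuous (fun x : F => ‖x‖ ^ (4 / 3 : ℝ) * |w x| ^ 2) :=
    (continuous_norm.rpow_const (fun x => Or.inr (by norm_num))).mul (hw.abs.pow 2)
  have hfi : IntegrableOn (fun x => ‖x‖ ^ 2 * |w x| ^ 3) cube :=
    integrableOn_cube ((continuous_norm.pow 2).mul (hw.abs.pow 3))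
  have hpow : ∀ x : F, (‖x‖ ^ (4 / 3 : ℝ) * |w x| ^ 2) ^ (3 / 2 : ℝ) = ‖x‖ ^ 2 * |w x| ^ 3 := by
    intro x
    rw [Real.mul_rpow (by positivity) (by positivity), ← Real.rpow_mul (norm_nonneg x),
      ← Real.rpow_natCast (|w x|) 2, ← Real.rpow_mul (abs_nonneg _), ← Real.rpow_natCast ‖x‖ 2,
      ← Real.rpow_natCast (|w x|) 3]
    norm_num
  have hf : MemLp (fun x : F => ‖x‖ ^ (4 / 3 : ℝ) * |w x| ^ 2) (ENNReal.ofReal (3 / 2))
      (volume.restrict (ball 0 (1 / 2))) := by
    rw [← integrable_norm_rpow_iff hfc.aestronglyMeasurable (by simp) (by simp)]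
    rw [ENNReal.toReal_ofReal (by norm_num)]
    apply (hfi.mono_set hsub).congr
    filter_upwards with x
    rw [Real.norm_of_nonneg (by positivity), hpow]
  have h2 := integral_mul_le_Lp_mul_Lq_of_nonneg hconj
    (Eventually.of_forall fun x => by positivity) (Eventually.of_forall fun x => by positivity)
    hf hg
  rw [h1]
  have h3 : ∫ y in ball (0 : F) (1 / 2), |dens w y|
      ≤ ∫ x in ball (0 : F) (1 / 2), (‖x‖ ^ (4 / 3 : ℝ) * |w x| ^ 2) * ‖x‖ ^ (-(4 / 3) : ℝ) := by
    apply integral_mono_of_nonneg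
    · filter_upwards with x
      positivity
    · have hH : ENNReal.HolderConjugate (ENNReal.ofReal (3 / 2)) (ENNReal.ofReal 3) :=
        hconj.ennrealOfReal
      exact hf.integrable_mul hg
    · have hne : ∀ᵐ x : F ∂(volume.restrict (ball 0 (1 / 2))), x ≠ 0 := by
        apply ae_restrict_of_ae
        rw [ae_iff]
        simp
      filter_upwards [hne] with x hx
      rw [abs_dens]
      have hx0 : 0 < ‖x‖ := norm_pos_iff.mpr hx
      have h4 : (‖x‖ ^ (4 / 3 : ℝ) * |w x| ^ 2) * ‖x‖ ^ (-(4 / 3) : ℝ) = |w x| ^ 2 := by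
        rw [mul_right_comm, ← Real.rpow_add hx0]
        norm_num
      rw [h4]
      calc cutD x * |w x| ^ 2 ≤ 1 * |w x| ^ 2 :=
            mul_le_mul_of_nonneg_right cutD.le_one (by positivity)
        _ = |w x| ^ 2 := one_mul _
  refine h3.trans (h2.trans ?_)
  have h5 : (1 : ℝ) / (3 / 2) = 2 / 3 := by norm_num
  rw [h5, mul_comm]
  apply mul_le_mul_of_nonneg_left _ (by positivity)
  apply Real.rpow_le_rpow _ _ (by norm_num)
  · apply integral_nonneg
    intro x
    positivity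
  · simp_rw [hpow]
    exact setIntegral_mono_set hfi (Eventually.of_forall fun x => by positivity)
      (Eventually.of_forall hsub)

lemma exists_shell_bound : ∃ c : ℝ, 0 ≤ c ∧ ∀ w : F → ℝ, Continuous w →
    ∫ y in shell, |w y| ≤ c * (∫ x in cube, ‖x‖ ^ 2 * |w x| ^ 3) ^ (1 / 3 : ℝ) := by
  refine ⟨(volume.real shell) ^ (2 / 3 : ℝ) * 16 ^ (1 / 3 : ℝ), by positivity, ?_⟩
  intro w hw
  have hconj : (3 : ℝ).HolderConjugate (3 / 2) := by
    rw [Real.holderConjugate_iff]
    norm_num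
  have hfin : IsFiniteMeasure (volume.restrict shell) :=
    ⟨by rw [Measure.restrict_apply_univ]; exact volume_shell_lt_top⟩
  have hfi : IntegrableOn (fun x => ‖x‖ ^ 2 * |w x| ^ 3) cube :=
    integrableOn_cube ((continuous_norm.pow 2).mul (hw.abs.pow 3))
  have hpow : ∀ x : F, |w x| ^ (3 : ℝ) = |w x| ^ 3 := fun x => by
    rw [← Real.rpow_natCast]
    norm_num
  have hf : MemLp (fun x : F => |w x|) (ENNReal.ofReal 3) (volume.restrict shell) := by
    rw [← integrable_norm_rpow_iff hw.abs.aestronglyMeasurable (by simp) (by simp)]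
    rw [ENNReal.toReal_ofReal (by norm_num)]
    have hi0 : IntegrableOn (fun x => |w x| ^ 3) shell :=
      (integrableOn_cube (u := fun x => |w x| ^ 3) (hw.abs.pow 3)).mono_set shell_subset
    apply hi0.congr
    filter_upwards with x
    rw [Real.norm_of_nonneg (by positivity), hpow]
  have h2 := integral_mul_le_Lp_mul_Lq_of_nonneg hconj
    (g := fun _ => (1 : ℝ)) (Eventually.of_forall fun x => by positivity)
    (Eventually.of_forall fun x => by positivity) hf (memLp_const 1)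
  have h5 : (1 : ℝ) / (3 / 2) = 2 / 3 := by norm_num
  simp only [mul_one, Real.one_rpow, hpow, h5] at h2
  rw [setIntegral_const, smul_eq_mul, mul_one] at h2
  refine h2.trans ?_
  rw [mul_comm, mul_assoc]
  apply mul_le_mul_of_nonneg_left _ (by positivity)
  rw [← Real.mul_rpow (by norm_num) (integral_nonneg fun x => by positivity)]
  apply Real.rpow_le_rpow _ _ (by norm_num)
  · apply integral_nonneg
    intro x
    positivity
  · calc ∫ x in shell, |w x| ^ 3 ≤ ∫ x in shell, 16 * (‖x‖ ^ 2 * |w x| ^ 3) := by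
          apply setIntegral_mono_on
          · exact (integrableOn_cube (hw.abs.pow 3)).mono_set shell_subset
          · exact IntegrableOn.mono_set (hfi.const_mul 16) shell_subset
          · exact measurableSet_shell
          · intro x hx
            have h6 : 1 ≤ 16 * ‖x‖ ^ 2 := by nlinarith [hx.1]
            have h7 : 0 ≤ |w x| ^ 3 := by positivity
            nlinarith
      _ ≤ ∫ x in cube, 16 * (‖x‖ ^ 2 * |w x| ^ 3) :=
          setIntegral_mono_set (hfi.const_mul 16)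
            (Eventually.of_forall fun x => by positivity) (Eventually.of_forall shell_subset)
      _ = 16 * ∫ x in cube, ‖x‖ ^ 2 * |w x| ^ 3 := integral_const_mul _ _

/-- The normalised inequality. -/
lemma smooth_one {S : ℝ} (hS : 0 < S) (hSob : SobIneq S) :
    ∃ K : ℝ, 0 ≤ K ∧ ∀ w : F → ℝ, ContDiff ℝ 1 w → (∫ x in cube, |w x| ^ 3) = 1 →
      S * (1 - K * ∫ x in cube, ‖x‖ ^ 2 * |w x| ^ 3) ≤ ∫ x in cube, ‖fderiv ℝ w x‖ ^ 2 := by
  obtain ⟨C, hC0, hC⟩ := exists_err_bound
  obtain ⟨c1, hc10, hc1⟩ := exists_k_bound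
  obtain ⟨c2, hc20, hc2⟩ := exists_shell_bound
  refine ⟨128 + 2 * C * c1 * c2 + S * (4 * (C ^ 2 * volume.real shell * c1 ^ 2)),
    by positivity, ?_⟩
  intro w hw hX
  have hwc := hw.continuous
  have hkey := key_lim hS hSob hC0 hC (isDens hwc) hw
  set Q := ∫ x in cube, ‖x‖ ^ 2 * |w x| ^ 3 with hQ
  have hi3 : IntegrableOn (fun x => |w x| ^ 3) cube := integrableOn_cube (hwc.abs.pow 3)
  have hiQ : IntegrableOn (fun x => ‖x‖ ^ 2 * |w x| ^ 3) cube :=
    integrableOn_cube ((continuous_norm.pow 2).mul (hwc.abs.pow 3))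
  have hQ0 : 0 ≤ Q := integral_nonneg fun x => by positivity
  have hQ1 : Q ≤ 3 / 2 := by
    calc Q ≤ ∫ x in cube, 3 / 2 * |w x| ^ 3 := by
          apply setIntegral_mono_on hiQ (hi3.const_mul _) measurableSet_cube
          intro x hx
          exact mul_le_mul_of_nonneg_right (norm_sq_le_of_mem_cube hx) (by positivity)
      _ = 3 / 2 := by rw [integral_const_mul, hX, mul_one]
  -- the main term
  have h1 : 1 - 64 * Q ≤ ∫ x, w x * (cutP x * dens w x) := by
    have h2 : ∫ x, w x * (cutP x * dens w x) = ∫ x in cube, w x * (cutP x * dens w x) := by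
      rw [setIntegral_eq_integral_of_forall_compl_eq_zero]
      intro x hx
      have : 1 / 6 ≤ ‖x‖ := by
        by_contra h
        push Not at h
        exact hx (mem_cube_of_norm (by linarith))
      rw [(isDens hwc).supp x this]
      ring
    rw [h2, ← hX, ← integral_const_mul, ← integral_sub hi3 (hiQ.const_mul 64)]
    apply setIntegral_mono_on
    · exact hi3.sub (hiQ.const_mul 64)
    · exact integrableOn_cube (hwc.mul (cutP.continuous.mul (isDens hwc).cont))
    · exact measurableSet_cube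
    · intro x _
      have h7 : 0 ≤ |w x| ^ 3 := by positivity
      have h8 : w x * (cutP x * dens w x) = cutP x * cutD x * |w x| ^ 3 := by
        unfold dens
        have : |w x| ^ 3 = |w x| * (w x * w x) := by
          rw [pow_succ, sq_abs]
          ring
        rw [this]
        ring
      rw [h8]
      by_cases hx : ‖x‖ ≤ 1 / 8
      · have h9 : cutD x = 1 := by
          apply cutD.one_of_mem_closedBall
          simpa [cutD] using hx
        have h10 : cutP x = 1 := by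
          apply cutP.one_of_mem_closedBall
          have : ‖x‖ ≤ 1 / 4 := by linarith
          simpa [cutP] using this
        rw [h9, h10]
        have : 0 ≤ 64 * (‖x‖ ^ 2 * |w x| ^ 3) := by positivity
        linarith
      · push Not at hx
        have h11 : 1 ≤ 64 * ‖x‖ ^ 2 := by nlinarith
        have h12 : 0 ≤ cutP x * cutD x * |w x| ^ 3 :=
          mul_nonneg (mul_nonneg cutP.nonneg cutD.nonneg) h7
        nlinarith
  -- the norm of the density
  have h2 : (∫ x, |cutP x * dens w x| ^ (3 / 2 : ℝ)) ^ (4 / 3 : ℝ) ≤ 1 := by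
    have h3 : ∫ x, |cutP x * dens w x| ^ (3 / 2 : ℝ)
        = ∫ x in cube, |cutP x * dens w x| ^ (3 / 2 : ℝ) := by
      rw [setIntegral_eq_integral_of_forall_compl_eq_zero]
      intro x hx
      have : 1 / 6 ≤ ‖x‖ := by
        by_contra h
        push Not at h
        exact hx (mem_cube_of_norm (by linarith))
      rw [(isDens hwc).supp x this, mul_zero, abs_zero, Real.zero_rpow (by norm_num)]
    have h4 : ∫ x in cube, |cutP x * dens w x| ^ (3 / 2 : ℝ) ≤ 1 := by
      rw [← hX]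
      apply setIntegral_mono_on
      · apply integrableOn_cube
        exact (cutP.continuous.mul (isDens hwc).cont).abs.rpow_const
          (fun x => Or.inr (by norm_num))
      · exact hi3
      · exact measurableSet_cube
      · intro x _
        have h5 : |cutP x * dens w x| ≤ |w x| ^ 2 := by
          rw [abs_mul, abs_dens, abs_of_nonneg cutP.nonneg]
          have := mul_le_mul (cutP.le_one (x := x)) (cutD.le_one (x := x)) cutD.nonneg zero_le_one
          calc cutP x * (cutD x * |w x| ^ 2) = (cutP x * cutD x) * |w x| ^ 2 := by ring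
            _ ≤ (1 * 1) * |w x| ^ 2 := mul_le_mul_of_nonneg_right this (by positivity)
            _ = |w x| ^ 2 := by ring
        calc |cutP x * dens w x| ^ (3 / 2 : ℝ) ≤ (|w x| ^ 2) ^ (3 / 2 : ℝ) :=
              Real.rpow_le_rpow (abs_nonneg _) h5 (by norm_num)
          _ = |w x| ^ 3 := by
              rw [← Real.rpow_natCast (|w x|) 2, ← Real.rpow_mul (abs_nonneg _),
                ← Real.rpow_natCast (|w x|) 3]
              norm_num
    rw [h3]
    apply Real.rpow_le_one (integral_nonneg fun x => by positivity) h4 (by norm_num)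
  set k := ∫ y, |dens w y| with hk
  set T := ∫ x in shell, |w x| with hT
  have hk0 : 0 ≤ k := integral_nonneg fun y => abs_nonneg _
  have hT0 : 0 ≤ T := integral_nonneg fun y => abs_nonneg _
  have hk1 := hc1 w hwc
  have hT1 := hc2 w hwc
  rw [← hQ, ← hk] at hk1
  rw [← hQ, ← hT] at hT1
  have hkT : k * T ≤ c1 * c2 * Q := by
    calc k * T ≤ (c1 * Q ^ (2 / 3 : ℝ)) * (c2 * Q ^ (1 / 3 : ℝ)) :=
          mul_le_mul hk1 hT1 hT0 (by positivity)
      _ = c1 * c2 * (Q ^ (2 / 3 : ℝ) * Q ^ (1 / 3 : ℝ)) := by ring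
      _ = c1 * c2 * Q := by
          rw [← Real.rpow_add_of_nonneg hQ0 (by norm_num) (by norm_num)]
          norm_num
  have hk2 : k ^ 2 ≤ 2 * c1 ^ 2 * Q := by
    have h13 : Q ^ (1 / 3 : ℝ) ≤ 2 := by
      calc Q ^ (1 / 3 : ℝ) ≤ (8 : ℝ) ^ (1 / 3 : ℝ) :=
            Real.rpow_le_rpow hQ0 (by linarith) (by norm_num)
        _ = 2 := by
            rw [show (8 : ℝ) = 2 ^ (3 : ℝ) by norm_num, ← Real.rpow_mul (by norm_num)]
            norm_num
    calc k ^ 2 ≤ (c1 * Q ^ (2 / 3 : ℝ)) ^ 2 := pow_le_pow_left₀ hk0 hk1 2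
      _ = c1 ^ 2 * (Q ^ (2 / 3 : ℝ)) ^ 2 := by ring
      _ = c1 ^ 2 * (Q * Q ^ (1 / 3 : ℝ)) := by
          congr 1
          rw [← Real.rpow_natCast, ← Real.rpow_mul hQ0]
          nth_rewrite 2 [← Real.rpow_one Q]
          rw [← Real.rpow_add_of_nonneg hQ0 (by norm_num) (by norm_num)]
          norm_num
      _ ≤ c1 ^ 2 * (Q * 2) := by gcongr
      _ = 2 * c1 ^ 2 * Q := by ring
  have hV0 : 0 ≤ volume.real shell := measureReal_nonneg
  have hfin1 : 2 * S * (1 - 64 * Q - C * (c1 * c2 * Q)) ≤ 2 * S * ((∫ x, w x * (cutP x * dens w x))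
      - C * k * T) := by
    apply mul_le_mul_of_nonneg_left _ (by positivity)
    have := mul_le_mul_of_nonneg_left hkT hC0
    have h14 : C * k * T = C * (k * T) := by ring
    rw [h14]
    linarith
  have hfin2 : S * (∫ x, |cutP x * dens w x| ^ (3 / 2 : ℝ)) ^ (4 / 3 : ℝ) ≤ S * 1 :=
    mul_le_mul_of_nonneg_left h2 hS.le
  have hfin3 : S ^ 2 * (2 * (C ^ 2 * volume.real shell * k ^ 2))
      ≤ S ^ 2 * (2 * (C ^ 2 * volume.real shell * (2 * c1 ^ 2 * Q))) := by
    gcongr
  have hfin4 : S * (1 - (128 + 2 * C * c1 * c2 + S * (4 * (C ^ 2 * volume.real shell * c1 ^ 2))) * Q)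
      = 2 * S * (1 - 64 * Q - C * (c1 * c2 * Q)) - S * 1
        - S ^ 2 * (2 * (C ^ 2 * volume.real shell * (2 * c1 ^ 2 * Q))) := by
    ring
  rw [hfin4]
  linarith

/-- The inequality for all `w`. -/
lemma smooth_all {S : ℝ} (hS : 0 < S) (hSob : SobIneq S) :
    ∃ K : ℝ, 0 ≤ K ∧ ∀ w : F → ℝ, ContDiff ℝ 1 w → 0 < (∫ x in cube, |w x| ^ 3) →
      S * ((∫ x in cube, |w x| ^ 3) ^ (2 / 3 : ℝ)
        * (1 - K * ((∫ x in cube, ‖x‖ ^ 2 * |w x| ^ 3) / (∫ x in cube, |w x| ^ 3))))
        ≤ ∫ x in cube, ‖fderiv ℝ w x‖ ^ 2 := by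
  obtain ⟨K, hK0, hK⟩ := smooth_one hS hSob
  refine ⟨K, hK0, ?_⟩
  intro w hw hX
  set X := ∫ x in cube, |w x| ^ 3 with hXd
  set Q := ∫ x in cube, ‖x‖ ^ 2 * |w x| ^ 3 with hQd
  set t := X ^ (-(1 / 3) : ℝ) with ht
  have ht0 : 0 < t := Real.rpow_pos_of_pos hX _
  have ht3 : t ^ 3 * X = 1 := by
    rw [ht, ← Real.rpow_natCast, ← Real.rpow_mul hX.le]
    nth_rewrite 2 [← Real.rpow_one X]
    rw [← Real.rpow_add hX]
    norm_num
  have ht2 : t ^ 2 * X ^ (2 / 3 : ℝ) = 1 := by
    rw [ht, ← Real.rpow_natCast, ← Real.rpow_mul hX.le, ← Real.rpow_add hX]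
    norm_num
  have h1 : ∀ x, |t * w x| ^ 3 = t ^ 3 * |w x| ^ 3 := fun x => by
    rw [abs_mul, abs_of_pos ht0, mul_pow]
  have h := hK (fun x => t * w x) (contDiff_const.mul hw) (by
    simp_rw [h1]
    rw [integral_const_mul]
    exact ht3)
  have h2 : ∫ x in cube, ‖x‖ ^ 2 * |t * w x| ^ 3 = Q / X := by
    have : ∀ x : F, ‖x‖ ^ 2 * |t * w x| ^ 3 = t ^ 3 * (‖x‖ ^ 2 * |w x| ^ 3) := fun x => by
      rw [h1]; ring
    simp_rw [this]
    rw [integral_const_mul, eq_div_iff hX.ne', ← hQd]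
    calc t ^ 3 * Q * X = (t ^ 3 * X) * Q := by ring
      _ = Q := by rw [ht3, one_mul]
  have h3 : ∫ x in cube, ‖fderiv ℝ (fun x => t * w x) x‖ ^ 2
      = t ^ 2 * ∫ x in cube, ‖fderiv ℝ w x‖ ^ 2 := by
    rw [← integral_const_mul]
    apply integral_congr_ae
    filter_upwards with x
    have : fderiv ℝ (fun x => t * w x) x = t • fderiv ℝ w x :=
      fderiv_const_mul ((hw.differentiable (by simp)) x) t
    rw [this, norm_smul, mul_pow, Real.norm_eq_abs, sq_abs]
  rw [h2, h3] at h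
  have h4 : 0 < X ^ (2 / 3 : ℝ) := Real.rpow_pos_of_pos hX _
  have h5 := mul_le_mul_of_nonneg_left h h4.le
  calc S * (X ^ (2 / 3 : ℝ) * (1 - K * (Q / X)))
      = X ^ (2 / 3 : ℝ) * (S * (1 - K * (Q / X))) := by ring
    _ ≤ X ^ (2 / 3 : ℝ) * (t ^ 2 * ∫ x in cube, ‖fderiv ℝ w x‖ ^ 2) := h5
    _ = (t ^ 2 * X ^ (2 / 3 : ℝ)) * ∫ x in cube, ‖fderiv ℝ w x‖ ^ 2 := by ring
    _ = ∫ x in cube, ‖fderiv ℝ w x‖ ^ 2 := by rw [ht2, one_mul]

/-- The weight function: one minus a multiple of `∑ sin²(π xᵢ)`. -/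
noncomputable def fM (M : ℝ) (x : F) : ℝ := 1 - M * ∑ i, Real.sin (Real.pi * x i) ^ 2

lemma fM_le {M : ℝ} (hM : 0 ≤ M) {x : F} (hx : x ∈ cube) : fM M x ≤ 1 - 4 * M * ‖x‖ ^ 2 := by
  unfold fM
  have h1 : 4 * ‖x‖ ^ 2 ≤ ∑ i, Real.sin (Real.pi * x i) ^ 2 := by
    rw [norm_sq_sum, Finset.mul_sum]
    apply Finset.sum_le_sum
    intro i _
    have hxi : |x i| ≤ 1 / 2 := by
      rw [abs_le]
      exact ⟨by linarith [(hx i).1], (hx i).2.le⟩
    have h2 : 2 / Real.pi * (Real.pi * |x i|) ≤ Real.sin (Real.pi * |x i|) := by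
      apply Real.mul_le_sin (by positivity)
      nlinarith [Real.pi_pos]
    have h3 : 2 / Real.pi * (Real.pi * |x i|) = 2 * |x i| := by
      field_simp
    rw [h3] at h2
    have h4 : Real.sin (Real.pi * |x i|) ^ 2 = Real.sin (Real.pi * x i) ^ 2 := by
      rcases abs_cases (x i) with ⟨h, _⟩ | ⟨h, _⟩
      · rw [h]
      · rw [h, mul_neg, Real.sin_neg, neg_sq]
    rw [← h4]
    have h5 : (2 * |x i|) ^ 2 ≤ Real.sin (Real.pi * |x i|) ^ 2 :=
      pow_le_pow_left₀ (by positivity) h2 2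
    have h6 : (2 * |x i|) ^ 2 = 4 * x i ^ 2 := by
      rw [mul_pow, sq_abs]
      norm_num
    linarith
  nlinarith

lemma continuous_fM (M : ℝ) : Continuous (fM M) := by
  unfold fM
  apply continuous_const.sub
  apply continuous_const.mul
  apply continuous_finsetSum
  intro i _
  exact (Real.continuous_sin.comp (continuous_const.mul
    (EuclideanSpace.proj i : F →L[ℝ] ℝ).continuous)).pow 2

/-- The inequality without remainder for the weight `fM M` with large `M`. -/
lemma smooth_fM {S : ℝ} (hS : 0 < S) (hSob : SobIneq S) :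
    ∃ M₀ : ℝ, 1 ≤ M₀ ∧ ∀ M : ℝ, M₀ ≤ M → ∀ w : F → ℝ, ContDiff ℝ 1 w →
      0 < (∫ x in cube, fM M x * |w x| ^ 3) →
      S * (∫ x in cube, fM M x * |w x| ^ 3) ^ (2 / 3 : ℝ) ≤ ∫ x in cube, ‖fderiv ℝ w x‖ ^ 2 := by
  obtain ⟨K, hK0, hK⟩ := smooth_all hS hSob
  refine ⟨K + 1, by linarith, ?_⟩
  intro M hM w hw hZ
  have hM0 : 0 ≤ M := by linarith
  have hwc := hw.continuous
  set X := ∫ x in cube, |w x| ^ 3 with hXd
  set Q := ∫ x in cube, ‖x‖ ^ 2 * |w x| ^ 3 with hQd
  set Z := ∫ x in cube, fM M x * |w x| ^ 3 with hZd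
  have hi3 : IntegrableOn (fun x => |w x| ^ 3) cube := integrableOn_cube (hwc.abs.pow 3)
  have hiQ : IntegrableOn (fun x => ‖x‖ ^ 2 * |w x| ^ 3) cube :=
    integrableOn_cube ((continuous_norm.pow 2).mul (hwc.abs.pow 3))
  have hQ0 : 0 ≤ Q := integral_nonneg fun x => by positivity
  have h1 : Z ≤ X - 4 * M * Q := by
    rw [hXd, hQd, ← integral_const_mul, ← integral_sub hi3 (hiQ.const_mul _)]
    apply setIntegral_mono_on
    · exact integrableOn_cube ((continuous_fM M).mul (hwc.abs.pow 3))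
    · exact hi3.sub (hiQ.const_mul _)
    · exact measurableSet_cube
    · intro x hx
      have h2 := mul_le_mul_of_nonneg_right (fM_le hM0 hx) (by positivity : 0 ≤ |w x| ^ 3)
      refine h2.trans (le_of_eq ?_)
      ring
  have hX : 0 < X := by nlinarith [mul_nonneg (mul_nonneg (by norm_num : (0 : ℝ) ≤ 4) hM0) hQ0]
  have h2 := hK w hw hX
  refine le_trans ?_ h2
  apply mul_le_mul_of_nonneg_left _ hS.le
  have h3 : 0 ≤ 1 - 4 * M * (Q / X) := by
    have : 1 - 4 * M * (Q / X) = (X - 4 * M * Q) / X := by field_simp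
    rw [this]
    apply div_nonneg _ hX.le
    linarith
  have h4 : X - 4 * M * Q = X * (1 - 4 * M * (Q / X)) := by field_simp
  calc Z ^ (2 / 3 : ℝ) ≤ (X * (1 - 4 * M * (Q / X))) ^ (2 / 3 : ℝ) := by
        rw [← h4]
        exact Real.rpow_le_rpow hZ.le h1 (by norm_num)
    _ = X ^ (2 / 3 : ℝ) * (1 - 4 * M * (Q / X)) ^ (2 / 3 : ℝ) := Real.mul_rpow hX.le h3
    _ ≤ X ^ (2 / 3 : ℝ) * (1 - K * (Q / X)) := by
        apply mul_le_mul_of_nonneg_left _ (by positivity)
        have h5 := rpow_one_add_le_one_add_mul_self (s := -(4 * M * (Q / X)))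
          (p := (2 / 3 : ℝ)) (by linarith) (by norm_num) (by norm_num)
        have h6 : 1 + -(4 * M * (Q / X)) = 1 - 4 * M * (Q / X) := by ring
        rw [h6] at h5
        refine h5.trans ?_
        have h7 : 0 ≤ Q / X := div_nonneg hQ0 hX.le
        have h8 : K ≤ 2 / 3 * (4 * M) := by linarith
        nlinarith [mul_le_mul_of_nonneg_right h8 h7]

end Pool.Agent.Q88.CritConst
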