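import Pool.Agent.Q88.CritConst.Smooth

/-! The Sobolev space of the flat torus and the passage to the limit. -/

open MeasureTheory Set Filter Metric
open scoped ContDiff Topology ENNReal

namespace Pool.Agent.Q88.CritConst

/-- The integer vector `m` as a point of Euclidean space. -/
noncomputable def lat (m : Fin 6 → ℤ) : F := WithLp.toLp 2 (fun i => (m i : ℝ))

/-- `ℤ⁶`-periodic functions. -/
def Per {α : Type*} (u : F → α) : Prop := ∀ (m : Fin 6 → ℤ) (x : F), u (x + lat m) = u x

/-- The set of translates used to cover the ball. -/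
noncomputable def tr : Finset (Fin 6 → ℤ) := Fintype.piFinset (fun _ => Finset.Icc (-4) 4)

lemma exists_tr {x : F} (hx : x ∈ closedBall (0 : F) 3) : ∃ m ∈ tr, x + lat m ∈ cube := by
  refine ⟨fun i => -⌊x i + 1 / 2⌋, ?_, ?_⟩
  · unfold tr
    rw [Fintype.mem_piFinset]
    intro i
    have h1 := PiLp.norm_apply_le x i
    rw [Real.norm_eq_abs] at h1
    have h2 : ‖x‖ ≤ 3 := by simpa using hx
    have h3 := abs_le.mp (h1.trans h2)
    rw [Finset.mem_Icc]
    constructor
    · have : ⌊x i + 1 / 2⌋ ≤ 4 := by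
        have h4 := Int.floor_le (x i + 1 / 2)
        have h5 : ((⌊x i + 1 / 2⌋ : ℤ) : ℝ) < 5 := by linarith [h3.2]
        have h6 : ⌊x i + 1 / 2⌋ < 5 := by exact_mod_cast h5
        omega
      omega
    · have : -4 ≤ ⌊x i + 1 / 2⌋ := by
        rw [Int.le_floor]
        push_cast
        linarith [h3.1]
      omega
  · intro i
    have h4 := Int.floor_le (x i + 1 / 2)
    have h5 := Int.lt_floor_add_one (x i + 1 / 2)
    have h6 : (x + lat (fun i => -⌊x i + 1 / 2⌋)) i = x i - ⌊x i + 1 / 2⌋ := by
      unfold lat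
      simp [sub_eq_add_neg]
    rw [h6]
    constructor <;> linarith

lemma lintegral_ball_le {g : F → ℝ≥0∞} (hg : Measurable g) (hp : Per g) :
    ∫⁻ x in closedBall (0 : F) 3, g x ≤ tr.card * ∫⁻ x in cube, g x := by
  rw [← lintegral_indicator measurableSet_closedBall]
  have h1 : ∀ x, (closedBall (0 : F) 3).indicator g x
      ≤ ∑ m ∈ tr, cube.indicator g (x + lat m) := by
    intro x
    by_cases hx : x ∈ closedBall (0 : F) 3
    · rw [indicator_of_mem hx]
      obtain ⟨m, hm, hxm⟩ := exists_tr hx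
      calc g x = cube.indicator g (x + lat m) := by
            rw [indicator_of_mem hxm, hp m x]
        _ ≤ _ := Finset.single_le_sum (f := fun m => cube.indicator g (x + lat m))
            (fun _ _ => zero_le) hm
    · rw [indicator_of_notMem hx]
      exact zero_le
  calc ∫⁻ x, (closedBall (0 : F) 3).indicator g x
      ≤ ∫⁻ x, ∑ m ∈ tr, cube.indicator g (x + lat m) := lintegral_mono h1
    _ = ∑ m ∈ tr, ∫⁻ x, cube.indicator g (x + lat m) := by
        apply lintegral_finsetSum
        intro m _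
        exact (hg.indicator measurableSet_cube).comp (measurable_add_const _)
    _ = ∑ m ∈ tr, ∫⁻ x in cube, g x := by
        apply Finset.sum_congr rfl
        intro m _
        rw [lintegral_add_right_eq_self (fun x => cube.indicator g x),
          lintegral_indicator measurableSet_cube]
    _ = tr.card * ∫⁻ x in cube, g x := by
        rw [Finset.sum_const, nsmul_eq_mul]

/-- The measure on the cube. -/
noncomputable abbrev mc : Measure F := volume.restrict cube

lemma eLpNorm_ball_le {E' : Type*} [NormedAddCommGroup E'] {f : F → E'} (hf : Continuous f)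
    (hp : Per f) :
    eLpNorm f 2 (volume.restrict (closedBall (0 : F) 3))
      ≤ (tr.card : ℝ≥0∞) ^ (1 / 2 : ℝ) * eLpNorm f 2 mc := by
  rw [eLpNorm_eq_lintegral_rpow_enorm_toReal (by simp) (by simp),
    eLpNorm_eq_lintegral_rpow_enorm_toReal (by simp) (by simp)]
  have h2 : (2 : ℝ≥0∞).toReal = 2 := by simp
  rw [h2, ← ENNReal.mul_rpow_of_nonneg _ _ (by norm_num)]
  apply ENNReal.rpow_le_rpow _ (by norm_num)
  apply lintegral_ball_le
  · exact (hf.enorm.measurable).pow_const _
  · intro m x
    simp only [hp m x]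

lemma per_fderiv {u : F → ℝ} (hu : Per u) : Per (fderiv ℝ u) := by
  intro m x
  have h := fderiv_comp_add_right (𝕜 := ℝ) (f := u) (x := x) (lat m)
  rw [← h]
  congr 1
  funext y
  exact hu m y

/-- The cutoff used in the embedding. -/
noncomputable def cutE : ContDiffBump (0 : F) := ⟨2, 3, by norm_num, by norm_num⟩

/-- The Sobolev embedding on the torus. -/
lemma embedding : ∃ C : ℝ≥0∞, C ≠ ⊤ ∧ ∀ u : F → ℝ, ContDiff ℝ 1 u → Per u →
    eLpNorm u 3 mc ≤ C * (eLpNorm (fderiv ℝ u) 2 mc + eLpNorm u 2 mc) := by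
  have hc : ContDiff ℝ ∞ (cutE : F → ℝ) := cutE.contDiff
  have hs : HasCompactSupport (cutE : F → ℝ) := cutE.hasCompactSupport
  obtain ⟨B, hB⟩ := (hs.fderiv (𝕜 := ℝ)).exists_bound_of_continuous
    (hc.continuous_fderiv (by simp))
  have hB0 : 0 ≤ B := (norm_nonneg _).trans (hB 0)
  set G : ℝ≥0∞ := (SNormLESNormFDerivOfEqConst ℝ (volume : Measure F) 2 : ℝ≥0∞) with hG
  set N : ℝ≥0∞ := (tr.card : ℝ≥0∞) ^ (1 / 2 : ℝ) with hN
  have hNt : N ≠ ⊤ := ENNReal.rpow_ne_top_of_nonneg (by norm_num) (by simp)
  refine ⟨G * (N * (1 + ENNReal.ofReal B)), ?_, ?_⟩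
  · apply ENNReal.mul_ne_top (by simp [hG])
    apply ENNReal.mul_ne_top hNt
    simp
  · intro u hu hp
    set v := fun x => cutE x * u x with hv
    have hvc : ContDiff ℝ 1 v := (hc.of_le (by simp)).mul hu
    have hvs : HasCompactSupport v := hs.mul_right
    have hgns := eLpNorm_le_eLpNorm_fderiv_of_eq (volume : Measure F) (F := ℝ) hvc hvs (p := 2)
      (p' := 3) (by norm_num) (by simp) (by simp; norm_num)
    have h1 : eLpNorm u 3 mc = eLpNorm v 3 mc := by
      apply eLpNorm_congr_ae
      filter_upwards [ae_restrict_mem measurableSet_cube] with x hx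
      rw [hv]
      simp only
      rw [cutE.one_of_mem_closedBall, one_mul]
      exact cube_subset hx
    have h2 : eLpNorm v 3 mc ≤ eLpNorm v 3 volume := eLpNorm_mono_measure _ Measure.restrict_le_self
    have h3 : fderiv ℝ v = (fun x => cutE x • fderiv ℝ u x) + fun x => u x • fderiv ℝ cutE x := by
      funext x
      have ha := ((hc.differentiable (by simp)) x).hasFDerivAt
      have hb := ((hu.differentiable (by simp)) x).hasFDerivAt
      have hab : fderiv ℝ v x = _ := (ha.mul hb).fderiv
      rw [hab]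
      rfl
    have hm1 : AEStronglyMeasurable (fun x => cutE x • fderiv ℝ u x) volume :=
      (hc.continuous.smul (hu.continuous_fderiv (by simp))).aestronglyMeasurable
    have hm2 : AEStronglyMeasurable (fun x => u x • fderiv ℝ cutE x) volume :=
      (hu.continuous.smul (hc.continuous_fderiv (by simp))).aestronglyMeasurable
    have h4 : eLpNorm (fun x => cutE x • fderiv ℝ u x) 2 volume
        ≤ eLpNorm (fderiv ℝ u) 2 (volume.restrict (closedBall (0 : F) 3)) := by
      rw [← eLpNorm_indicator_eq_eLpNorm_restrict (f := fderiv ℝ u) measurableSet_closedBall]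
      apply eLpNorm_mono
      intro x
      by_cases hx : x ∈ closedBall (0 : F) 3
      · rw [indicator_of_mem hx, norm_smul, Real.norm_of_nonneg cutE.nonneg]
        calc cutE x * ‖fderiv ℝ u x‖ ≤ 1 * ‖fderiv ℝ u x‖ :=
              mul_le_mul_of_nonneg_right cutE.le_one (norm_nonneg _)
          _ = ‖fderiv ℝ u x‖ := one_mul _
      · rw [indicator_of_notMem hx]
        have : cutE x = 0 := by
          apply cutE.zero_of_le_dist
          simp only [mem_closedBall, not_le] at hx
          exact hx.le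
        rw [this]
        simp
    have h5 : eLpNorm (fun x => u x • fderiv ℝ cutE x) 2 volume
        ≤ ENNReal.ofReal B * eLpNorm u 2 (volume.restrict (closedBall (0 : F) 3)) := by
      rw [← eLpNorm_indicator_eq_eLpNorm_restrict (f := u) measurableSet_closedBall]
      apply eLpNorm_le_mul_eLpNorm_of_ae_le_mul
      filter_upwards with x
      by_cases hx : x ∈ closedBall (0 : F) 3
      · rw [indicator_of_mem hx, norm_smul, mul_comm]
        exact mul_le_mul_of_nonneg_right (hB x) (norm_nonneg _)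
      · rw [indicator_of_notMem hx]
        have h6 : (cutE : F → ℝ) =ᶠ[𝓝 x] fun _ => 0 := by
          have h7 : (closedBall (0 : F) 3)ᶜ ∈ 𝓝 x := isClosed_closedBall.isOpen_compl.mem_nhds hx
          filter_upwards [h7] with y hy
          apply cutE.zero_of_le_dist
          simp only [mem_compl_iff, mem_closedBall, not_le] at hy
          exact hy.le
        rw [h6.fderiv_eq]
        simp
    have h6 := eLpNorm_ball_le (hu.continuous_fderiv (by simp)) (per_fderiv hp)
    have h7 := eLpNorm_ball_le hu.continuous hp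
    rw [h1]
    refine h2.trans (hgns.trans ?_)
    rw [h3, mul_assoc]
    apply mul_le_mul_right
    refine (eLpNorm_add_le hm1 hm2 (by norm_num)).trans ?_
    calc eLpNorm (fun x => cutE x • fderiv ℝ u x) 2 volume
          + eLpNorm (fun x => u x • fderiv ℝ cutE x) 2 volume
        ≤ N * eLpNorm (fderiv ℝ u) 2 mc + ENNReal.ofReal B * (N * eLpNorm u 2 mc) := by
          apply add_le_add (h4.trans h6)
          exact h5.trans (mul_le_mul_right h7 _)
      _ ≤ N * (1 + ENNReal.ofReal B) * (eLpNorm (fderiv ℝ u) 2 mc + eLpNorm u 2 mc) := by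
          have : N * (1 + ENNReal.ofReal B) * (eLpNorm (fderiv ℝ u) 2 mc + eLpNorm u 2 mc)
            = (N * eLpNorm (fderiv ℝ u) 2 mc + ENNReal.ofReal B * (N * eLpNorm u 2 mc))
              + (ENNReal.ofReal B * (N * eLpNorm (fderiv ℝ u) 2 mc) + N * eLpNorm u 2 mc) := by
            ring
          rw [this]
          exact le_self_add

/-- `w` belongs to the Sobolev space `H₁²` of the torus and has the gradient `G`. -/
def H1 (w : F → ℝ) (G : F → F) : Prop :=
  MemLp w 2 (volume.restrict cube) ∧ MemLp G 2 (volume.restrict cube) ∧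
  ∃ u : ℕ → F → ℝ, (∀ j, ContDiff ℝ ∞ (u j) ∧ Per (u j)) ∧
    Tendsto (fun j => eLpNorm (fun x => u j x - w x) 2 (volume.restrict cube)) atTop (𝓝 0) ∧
    Tendsto (fun j => eLpNorm (fun x => gradient (u j) x - G x) 2 (volume.restrict cube))
      atTop (𝓝 0)

instance : IsFiniteMeasure mc := ⟨by rw [Measure.restrict_apply_univ]; exact volume_cube_lt_top⟩

lemma memLp_cont {E' : Type*} [NormedAddCommGroup E'] {f : F → E'} (hf : Continuous f)
    (p : ℝ≥0∞) : MemLp f p mc := by
  obtain ⟨B, hB⟩ := (isCompact_closedBall (0 : F) 2).exists_bound_of_continuousOn hf.continuousOn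
  apply MemLp.of_bound hf.aestronglyMeasurable B
  filter_upwards [ae_restrict_mem measurableSet_cube] with x hx
  exact hB x (cube_subset hx)

lemma tendsto_int_pow {E' : Type*} [NormedAddCommGroup E'] {n : ℕ} (hn : 1 ≤ n)
    {f : ℕ → F → E'} {g : F → E'} (hf : ∀ j, MemLp (f j) n mc) (hg : MemLp g n mc)
    (h : Tendsto (fun j => eLpNorm (f j - g) n mc) atTop (𝓝 0)) :
    Tendsto (fun j => ∫ x in cube, ‖f j x‖ ^ n) atTop (𝓝 (∫ x in cube, ‖g x‖ ^ n)) := by
  have hfact : Fact (1 ≤ (n : ℝ≥0∞)) := ⟨by exact_mod_cast hn⟩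
  have hn0 : (n : ℝ≥0∞) ≠ 0 := by
    have : n ≠ 0 := by omega
    exact_mod_cast this
  have h1 := ((Lp.tendsto_Lp_iff_tendsto_eLpNorm'' f hf g hg).mpr h).norm
  have h2 : ∀ (k : F → E') (hk : MemLp k n mc),
      ‖hk.toLp k‖ ^ n = ∫ x in cube, ‖k x‖ ^ n := by
    intro k hk
    rw [Lp.norm_toLp, hk.eLpNorm_eq_integral_rpow_norm hn0 (by simp),
      ENNReal.toReal_ofReal (by positivity), ENNReal.toReal_natCast]
    rw [← Real.rpow_natCast, ← Real.rpow_mul (integral_nonneg fun x => by positivity)]
    have : (n : ℝ) ≠ 0 := by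
      have : n ≠ 0 := by omega
      exact_mod_cast this
    rw [inv_mul_cancel₀ this, Real.rpow_one]
    simp_rw [Real.rpow_natCast]
  have h3 := h1.pow n
  simp_rw [h2] at h3
  exact h3

lemma continuous_gradient {u : F → ℝ} (hu : ContDiff ℝ 1 u) : Continuous (gradient u) :=
  (InnerProductSpace.toDual ℝ F).symm.continuous.comp (hu.continuous_fderiv (by simp))

lemma norm_gradient (u : F → ℝ) (x : F) : ‖gradient u x‖ = ‖fderiv ℝ u x‖ := by
  unfold gradient
  rw [LinearIsometryEquiv.norm_map]

lemma tendsto_L3 {w : F → ℝ} {G : F → F} (hw : MemLp w 2 mc) (hG : MemLp G 2 mc)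
    {u : ℕ → F → ℝ} (hu : ∀ j, ContDiff ℝ ∞ (u j) ∧ Per (u j))
    (h1 : Tendsto (fun j => eLpNorm (fun x => u j x - w x) 2 mc) atTop (𝓝 0))
    (h2 : Tendsto (fun j => eLpNorm (fun x => gradient (u j) x - G x) 2 mc) atTop (𝓝 0)) :
    MemLp w 3 mc ∧ Tendsto (fun j => eLpNorm (u j - w) 3 mc) atTop (𝓝 0) := by
  obtain ⟨C, hCt, hC⟩ := embedding
  have hle : (1 : WithTop ℕ∞) ≤ (⊤ : ℕ∞) := by simp
  have hu1 : ∀ j, ContDiff ℝ 1 (u j) := fun j => (hu j).1.of_le hle
  -- a subsequence converges almost everywhere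
  have hmeas : TendstoInMeasure mc u atTop w := by
    apply tendstoInMeasure_of_tendsto_eLpNorm (p := 2) (by norm_num)
    · intro n
      exact (hu1 n).continuous.aestronglyMeasurable
    · exact hw.1
    · exact h1
  obtain ⟨ns, hns, hae⟩ := hmeas.exists_seq_tendsto_ae
  have hest : ∀ j, eLpNorm (u j - w) 3 mc
      ≤ C * (eLpNorm (fun x => gradient (u j) x - G x) 2 mc
        + eLpNorm (fun x => u j x - w x) 2 mc) := by
    intro j
    have hlim := Lp.eLpNorm_lim_le_liminf_eLpNorm (p := 3) (μ := mc)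
      (f := fun n => u j - u (ns n))
      (fun n => ((hu1 j).continuous.sub (hu1 (ns n)).continuous).aestronglyMeasurable)
      (u j - w) (by
        filter_upwards [hae] with x hx
        exact hx.const_sub (u j x))
    refine hlim.trans ?_
    have hb : ∀ n, eLpNorm (u j - u (ns n)) 3 mc
        ≤ C * ((eLpNorm (fun x => gradient (u j) x - G x) 2 mc
            + eLpNorm (fun x => gradient (u (ns n)) x - G x) 2 mc)
          + (eLpNorm (fun x => u j x - w x) 2 mc
            + eLpNorm (fun x => u (ns n) x - w x) 2 mc)) := by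
      intro n
      have hper : Per (u j - u (ns n)) := by
        intro m x
        simp only [Pi.sub_apply, (hu j).2 m x, (hu (ns n)).2 m x]
      refine (hC (u j - u (ns n)) ((hu1 j).sub (hu1 (ns n))) hper).trans ?_
      apply mul_le_mul_right
      apply add_le_add
      · have ha : eLpNorm (fderiv ℝ (u j - u (ns n))) 2 mc
            = eLpNorm ((fun x => gradient (u j) x - G x)
              - fun x => gradient (u (ns n)) x - G x) 2 mc := by
          apply eLpNorm_congr_norm_ae
          filter_upwards with x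
          have hd : fderiv ℝ (u j - u (ns n)) x = fderiv ℝ (u j) x - fderiv ℝ (u (ns n)) x :=
            fderiv_sub (((hu1 j).differentiable (by simp)) x)
              (((hu1 (ns n)).differentiable (by simp)) x)
          rw [hd, Pi.sub_apply, sub_sub_sub_cancel_right]
          unfold gradient
          rw [← map_sub, LinearIsometryEquiv.norm_map]
        rw [ha]
        apply eLpNorm_sub_le _ _ (by norm_num)
        · exact (continuous_gradient (hu1 j)).aestronglyMeasurable.sub hG.1
        · exact (continuous_gradient (hu1 (ns n))).aestronglyMeasurable.sub hG.1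
      · have ha : (u j - u (ns n)) = (fun x => u j x - w x) - fun x => u (ns n) x - w x := by
          funext x
          simp
        rw [ha]
        apply eLpNorm_sub_le _ _ (by norm_num)
        · exact (hu1 j).continuous.aestronglyMeasurable.sub hw.1
        · exact (hu1 (ns n)).continuous.aestronglyMeasurable.sub hw.1
    have hlim2 : Tendsto (fun n => C * ((eLpNorm (fun x => gradient (u j) x - G x) 2 mc
            + eLpNorm (fun x => gradient (u (ns n)) x - G x) 2 mc)
          + (eLpNorm (fun x => u j x - w x) 2 mc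
            + eLpNorm (fun x => u (ns n) x - w x) 2 mc))) atTop
        (𝓝 (C * ((eLpNorm (fun x => gradient (u j) x - G x) 2 mc + 0)
          + (eLpNorm (fun x => u j x - w x) 2 mc + 0)))) := by
      apply ENNReal.Tendsto.const_mul _ (Or.inr hCt)
      apply Tendsto.add
      · exact tendsto_const_nhds.add (h2.comp hns.tendsto_atTop)
      · exact tendsto_const_nhds.add (h1.comp hns.tendsto_atTop)
    simp only [add_zero] at hlim2
    rw [← hlim2.liminf_eq]
    exact liminf_le_liminf (Eventually.of_forall hb)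
  have htend : Tendsto (fun j => eLpNorm (u j - w) 3 mc) atTop (𝓝 0) := by
    have h3 : Tendsto (fun j => C * (eLpNorm (fun x => gradient (u j) x - G x) 2 mc
        + eLpNorm (fun x => u j x - w x) 2 mc)) atTop (𝓝 0) := by
      have := ENNReal.Tendsto.const_mul (a := C) (h2.add h1) (Or.inr hCt)
      simpa using this
    exact tendsto_of_tendsto_of_tendsto_of_le_of_le tendsto_const_nhds h3
      (fun _ => zero_le) hest
  refine ⟨?_, htend⟩
  obtain ⟨j, hj⟩ := (htend.eventually (gt_mem_nhds (zero_lt_one))).exists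
  have hm : MemLp (u j - w) 3 mc :=
    ⟨(hu1 j).continuous.aestronglyMeasurable.sub hw.1, hj.trans (by simp)⟩
  have : w = u j - (u j - w) := by simp
  rw [this]
  exact (memLp_cont (hu1 j).continuous 3).sub hm

/-- The inequality on the Sobolev space. -/
lemma sobolev_fM {S : ℝ} (hS : 0 < S) (hSob : SobIneq S) :
    ∃ M₀ : ℝ, 1 ≤ M₀ ∧ ∀ M : ℝ, M₀ ≤ M → ∀ (w : F → ℝ) (G : F → F), H1 w G →
      0 < (∫ x in cube, fM M x * |w x| ^ 3) →
      S * (∫ x in cube, fM M x * |w x| ^ 3) ^ (2 / 3 : ℝ) ≤ ∫ x in cube, ‖G x‖ ^ 2 := by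
  obtain ⟨M₀, hM1, hM0⟩ := smooth_fM hS hSob
  refine ⟨M₀, hM1, ?_⟩
  rintro M hMM w G ⟨hw, hG, u, hu, h1, h2⟩ hpos
  have hM := hM0 M hMM
  obtain ⟨hw3, h3⟩ := tendsto_L3 hw hG hu h1 h2
  have hle : (1 : WithTop ℕ∞) ≤ (⊤ : ℕ∞) := by simp
  have hu1 : ∀ j, ContDiff ℝ 1 (u j) := fun j => (hu j).1.of_le hle
  -- energies converge
  have hE : Tendsto (fun j => ∫ x in cube, ‖fderiv ℝ (u j) x‖ ^ 2) atTop
      (𝓝 (∫ x in cube, ‖G x‖ ^ 2)) := by
    have := tendsto_int_pow (n := 2) (by norm_num) (f := fun j => gradient (u j)) (g := G)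
      (fun j => memLp_cont (continuous_gradient (hu1 j)) _) hG h2
    simp_rw [norm_gradient] at this
    exact this
  -- the constraint converges
  have hfc := continuous_fM M
  have hfb : ∀ x, 0 ≤ fM M x + 6 * M := by
    intro x
    unfold fM
    have : ∑ i, Real.sin (Real.pi * x i) ^ 2 ≤ 6 := by
      calc ∑ i, Real.sin (Real.pi * x i) ^ 2 ≤ ∑ i : Fin 6, (1 : ℝ) :=
            Finset.sum_le_sum fun i _ => Real.sin_sq_le_one _
        _ = 6 := by simp
    nlinarith
  set g : F → ℝ := fun x => (fM M x + 6 * M) ^ (1 / 3 : ℝ) with hg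
  have hgc : Continuous g := (hfc.add continuous_const).rpow_const (fun x => Or.inr (by norm_num))
  have hg3 : ∀ x, g x ^ 3 = fM M x + 6 * M := by
    intro x
    rw [hg]
    simp only
    rw [← Real.rpow_natCast, ← Real.rpow_mul (hfb x)]
    norm_num
  have hg0 : ∀ x, 0 ≤ g x := fun x => Real.rpow_nonneg (hfb x) _
  obtain ⟨B, hB⟩ := (isCompact_closedBall (0 : F) 2).exists_bound_of_continuousOn hgc.continuousOn
  have hgw : ∀ k : F → ℝ, MemLp k 3 mc → MemLp (fun x => g x * k x) 3 mc := by
    intro k hk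
    apply hk.of_le_mul (c := B) (hgc.aestronglyMeasurable.mul hk.1)
    filter_upwards [ae_restrict_mem measurableSet_cube] with x hx
    rw [Pi.mul_apply, norm_mul]
    exact mul_le_mul_of_nonneg_right (hB x (cube_subset hx)) (norm_nonneg _)
  have hconv1 : Tendsto (fun j => ∫ x in cube, ‖g x * u j x‖ ^ 3) atTop
      (𝓝 (∫ x in cube, ‖g x * w x‖ ^ 3)) := by
    apply tendsto_int_pow (n := 3) (by norm_num) (f := fun j x => g x * u j x)
      (g := fun x => g x * w x)
    · intro j
      exact hgw _ (memLp_cont (hu1 j).continuous _)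
    · exact hgw _ hw3
    · have h4 : ∀ j, eLpNorm ((fun x => g x * u j x) - fun x => g x * w x) 3 mc
          ≤ ENNReal.ofReal B * eLpNorm (u j - w) 3 mc := by
        intro j
        apply eLpNorm_le_mul_eLpNorm_of_ae_le_mul
        filter_upwards [ae_restrict_mem measurableSet_cube] with x hx
        rw [Pi.sub_apply, ← mul_sub, norm_mul]
        exact mul_le_mul_of_nonneg_right (hB x (cube_subset hx)) (norm_nonneg _)
      have h5 : Tendsto (fun j => ENNReal.ofReal B * eLpNorm (u j - w) 3 mc) atTop (𝓝 0) := by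
        have := ENNReal.Tendsto.const_mul (a := ENNReal.ofReal B) h3 (Or.inr (by simp))
        simpa using this
      exact tendsto_of_tendsto_of_tendsto_of_le_of_le tendsto_const_nhds h5
        (fun _ => zero_le) h4
  have hconv2 : Tendsto (fun j => ∫ x in cube, ‖u j x‖ ^ 3) atTop
      (𝓝 (∫ x in cube, ‖w x‖ ^ 3)) :=
    tendsto_int_pow (n := 3) (by norm_num) (fun j => memLp_cont (hu1 j).continuous _) hw3 h3
  have hint : ∀ k : F → ℝ, MemLp k 3 mc → IntegrableOn (fun x => ‖k x‖ ^ 3) cube := by
    intro k hk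
    have := hk.integrable_norm_pow (by norm_num : (3 : ℕ) ≠ 0)
    exact this
  have hsplit : ∀ k : F → ℝ, MemLp k 3 mc → ∫ x in cube, fM M x * |k x| ^ 3
      = (∫ x in cube, ‖g x * k x‖ ^ 3) - 6 * M * ∫ x in cube, ‖k x‖ ^ 3 := by
    intro k hk
    rw [← integral_const_mul, ← integral_sub (hint _ (hgw k hk)) ((hint k hk).const_mul _)]
    apply integral_congr_ae
    filter_upwards with x
    rw [norm_mul, mul_pow, Real.norm_of_nonneg (hg0 x), hg3, Real.norm_eq_abs]
    ring
  have hZ : Tendsto (fun j => ∫ x in cube, fM M x * |u j x| ^ 3) atTop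
      (𝓝 (∫ x in cube, fM M x * |w x| ^ 3)) := by
    rw [hsplit w hw3]
    simp_rw [fun j => hsplit (u j) (memLp_cont (hu1 j).continuous _)]
    exact hconv1.sub (hconv2.const_mul _)
  have hlim1 : Tendsto (fun j => S * (∫ x in cube, fM M x * |u j x| ^ 3) ^ (2 / 3 : ℝ)) atTop
      (𝓝 (S * (∫ x in cube, fM M x * |w x| ^ 3) ^ (2 / 3 : ℝ))) :=
    (hZ.rpow_const (Or.inr (by norm_num))).const_mul _
  apply le_of_tendsto_of_tendsto hlim1 hE
  filter_upwards [hZ.eventually (lt_mem_nhds hpos)] with j hj
  exact hM (u j) (hu1 j) hj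

end Pool.Agent.Q88.CritConst
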